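import Pool.Agent.Helper23.GK.StA

/-!
# Project GK, module COI: coincidences in Vinogradov's system
-/

set_option autoImplicit false

namespace Pool.Agent.Helper1.GK

open Finset
open Pool.Agent.Helper23.GK

/-- counting by characters -/
private theorem coi_count {G : Type*} [AddCommGroup G] [Fintype G] [DecidableEq G]
    {α β : Type*} (U : Finset α) (V : Finset β) (u : α → G) (w : β → G) :
    (∑ ψ : AddChar G ℂ, (∑ x ∈ U, ψ (u x)) * (starRingEnd ℂ) (∑ y ∈ V, ψ (w y))) =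
      (Fintype.card G : ℂ) * (((U ×ˢ V).filter (fun z => u z.1 = w z.2)).card : ℂ) := by
  have h1 : ∀ ψ : AddChar G ℂ, (∑ x ∈ U, ψ (u x)) * (starRingEnd ℂ) (∑ y ∈ V, ψ (w y)) =
      ∑ z ∈ U ×ˢ V, ψ (u z.1 - w z.2) := by
    intro ψ
    rw [map_sum, Finset.sum_mul_sum, Finset.sum_product]
    refine Finset.sum_congr rfl fun x _ => Finset.sum_congr rfl fun y _ => ?_
    rw [← AddChar.map_neg_eq_conj, ← AddChar.map_add_eq_mul, sub_eq_add_neg]
  rw [Finset.sum_congr rfl (fun ψ _ => h1 ψ), Finset.sum_comm]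
  rw [Finset.card_filter]
  push_cast
  rw [Finset.mul_sum]
  refine Finset.sum_congr rfl fun z _ => ?_
  rw [AddChar.sum_apply_eq_ite]
  by_cases h : u z.1 = w z.2
  · simp [h]
  · have : u z.1 - w z.2 ≠ 0 := sub_ne_zero.2 h
    simp [h, this]

/-- Hoelder's inequality with natural exponents -/
private theorem coi_holder {ι : Type*} (s : Finset ι) (a b : ι → ℝ) (ha : ∀ i ∈ s, 0 ≤ a i)
    (hb : ∀ i ∈ s, 0 ≤ b i) (n : ℕ) (hn : 1 ≤ n) :
    (∑ i ∈ s, a i * b i ^ n) ^ (n + 2) ≤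
      (∑ i ∈ s, a i ^ (n + 2)) * (∑ i ∈ s, b i ^ (n + 2)) ^ n * (s.card : ℝ) := by
  set m : ℕ := n + 2 with hm
  have hm0 : m ≠ 0 := by omega
  set A : ℝ := ∑ i ∈ s, a i ^ m with hA
  set B : ℝ := ∑ i ∈ s, b i ^ m with hB
  have hA0 : 0 ≤ A := Finset.sum_nonneg fun i hi => pow_nonneg (ha i hi) _
  have hB0 : 0 ≤ B := Finset.sum_nonneg fun i hi => pow_nonneg (hb i hi) _
  rcases s.eq_empty_or_nonempty with hs | hs
  · subst hs
    simp [hm0]
  have hg : (0 : ℝ) < (s.card : ℝ) := by exact_mod_cast hs.card_pos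
  set g : ℝ := (s.card : ℝ) with hgdef
  rcases hA0.eq_or_lt with hA1 | hA1
  · have : ∀ i ∈ s, a i = 0 := by
      intro i hi
      have h0 := (Finset.sum_eq_zero_iff_of_nonneg (fun i hi => pow_nonneg (ha i hi) m)).1
        (hA ▸ hA1.symm) i hi
      exact pow_eq_zero_iff hm0 |>.1 h0
    have h2 : ∑ i ∈ s, a i * b i ^ n = 0 := Finset.sum_eq_zero fun i hi => by simp [this i hi]
    rw [h2, ← hA1]
    simp [hm0]
  rcases hB0.eq_or_lt with hB1 | hB1
  · have : ∀ i ∈ s, b i = 0 := by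
      intro i hi
      have h0 := (Finset.sum_eq_zero_iff_of_nonneg (fun i hi => pow_nonneg (hb i hi) m)).1
        (hB ▸ hB1.symm) i hi
      exact pow_eq_zero_iff hm0 |>.1 h0
    have hn0 : n ≠ 0 := by omega
    have h2 : ∑ i ∈ s, a i * b i ^ n = 0 := Finset.sum_eq_zero fun i hi => by
      simp [this i hi, hn0]
    rw [h2, ← hB1]
    simp [hm0, hn0]
  set α : ℝ := A ^ ((m : ℝ)⁻¹) with hα
  set β : ℝ := B ^ ((m : ℝ)⁻¹) with hβ
  set γ : ℝ := g ^ ((m : ℝ)⁻¹) with hγ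
  have hα0 : 0 < α := Real.rpow_pos_of_pos hA1 _
  have hβ0 : 0 < β := Real.rpow_pos_of_pos hB1 _
  have hγ0 : 0 < γ := Real.rpow_pos_of_pos hg _
  have hαm : α ^ m = A := Real.rpow_inv_natCast_pow hA1.le hm0
  have hβm : β ^ m = B := Real.rpow_inv_natCast_pow hB1.le hm0
  have hγm : γ ^ m = g := Real.rpow_inv_natCast_pow hg.le hm0
  have hmR : (0 : ℝ) < m := by exact_mod_cast Nat.pos_of_ne_zero hm0
  have key : ∀ i ∈ s, a i * b i ^ n ≤ (α * β ^ n * γ) *
      ((m : ℝ)⁻¹ * (a i ^ m / A) + ((m : ℝ)⁻¹ * n) * (b i ^ m / B) + (m : ℝ)⁻¹ * (1 / g)) := by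
    intro i hi
    have h3 := Real.geom_mean_le_arith_mean3_weighted (w₁ := (m : ℝ)⁻¹) (w₂ := (m : ℝ)⁻¹ * n)
      (w₃ := (m : ℝ)⁻¹) (p₁ := a i ^ m / A) (p₂ := b i ^ m / B) (p₃ := 1 / g)
      (by positivity) (by positivity) (by positivity)
      (div_nonneg (pow_nonneg (ha i hi) _) hA1.le) (div_nonneg (pow_nonneg (hb i hi) _) hB1.le)
      (by positivity) (by
        have : (m : ℝ) = n + 2 := by rw [hm]; push_cast; ring
        field_simp
        rw [this]; ring)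
    have e1 : (a i ^ m / A) ^ ((m : ℝ)⁻¹) = a i / α := by
      rw [← hαm, ← div_pow]
      exact Real.pow_rpow_inv_natCast (div_nonneg (ha i hi) hα0.le) hm0
    have e2 : (b i ^ m / B) ^ ((m : ℝ)⁻¹ * n) = (b i / β) ^ n := by
      rw [Real.rpow_mul (div_nonneg (pow_nonneg (hb i hi) _) hB1.le), Real.rpow_natCast]
      congr 1
      rw [← hβm, ← div_pow]
      exact Real.pow_rpow_inv_natCast (div_nonneg (hb i hi) hβ0.le) hm0
    have e3 : (1 / g) ^ ((m : ℝ)⁻¹) = 1 / γ := by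
      rw [← hγm]
      have : (1 : ℝ) / γ ^ m = (1 / γ) ^ m := by rw [div_pow, one_pow]
      rw [this]
      exact Real.pow_rpow_inv_natCast (by positivity) hm0
    rw [e1, e2, e3] at h3
    have h4 : a i * b i ^ n = (α * β ^ n * γ) * (a i / α * (b i / β) ^ n * (1 / γ)) := by
      rw [div_pow]
      field_simp
    rw [h4]
    exact mul_le_mul_of_nonneg_left h3 (by positivity)
  have hsum : ∑ i ∈ s, a i * b i ^ n ≤ α * β ^ n * γ := by
    calc ∑ i ∈ s, a i * b i ^ n ≤ ∑ i ∈ s, (α * β ^ n * γ) *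
      ((m : ℝ)⁻¹ * (a i ^ m / A) + ((m : ℝ)⁻¹ * n) * (b i ^ m / B) + (m : ℝ)⁻¹ * (1 / g)) :=
          Finset.sum_le_sum key
      _ = (α * β ^ n * γ) * ((m : ℝ)⁻¹ * (A / A) + ((m : ℝ)⁻¹ * n) * (B / B) +
            (m : ℝ)⁻¹ * (g * (1 / g))) := by
          rw [← Finset.mul_sum, Finset.sum_add_distrib, Finset.sum_add_distrib,
            ← Finset.mul_sum, ← Finset.mul_sum, ← Finset.sum_div, ← Finset.sum_div,
            Finset.sum_const, nsmul_eq_mul]
          ring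
      _ = α * β ^ n * γ := by
          rw [div_self hA1.ne', div_self hB1.ne', mul_one_div_cancel hg.ne']
          have : (m : ℝ) = n + 2 := by rw [hm]; push_cast; ring
          have h5 : (m : ℝ)⁻¹ * 1 + (m : ℝ)⁻¹ * n * 1 + (m : ℝ)⁻¹ * 1 = 1 := by
            field_simp
            rw [this]; ring
          rw [h5, mul_one]
  have hnn : 0 ≤ ∑ i ∈ s, a i * b i ^ n :=
    Finset.sum_nonneg fun i hi => mul_nonneg (ha i hi) (pow_nonneg (hb i hi) _)
  calc (∑ i ∈ s, a i * b i ^ n) ^ m ≤ (α * β ^ n * γ) ^ m := pow_le_pow_left₀ hnn hsum m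
    _ = A * B ^ n * g := by
        rw [mul_pow, mul_pow, hαm, hγm, ← pow_mul, mul_comm n m, pow_mul, hβm]

/-- power vectors -/
private def pv (k L : ℕ) (n : ℕ) : Fin k → ZMod L := fun c => (n : ZMod L) ^ (c.val + 1)

private theorem pv_sum (k L S : ℕ) (x : Fin S → ℕ) (c : Fin k) :
    (∑ l, pv k L (x l)) c = ((∑ l, x l ^ (c.val + 1) : ℕ) : ZMod L) := by
  rw [Finset.sum_apply]
  simp [pv]

private theorem pv_iff (k L S X : ℕ) (hX : 1 ≤ X) (hL : S * X ^ k < L) (x y : Fin S → ℕ)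
    (hx : ∀ l, x l ≤ X) (hy : ∀ l, y l ≤ X) :
    (∀ m ∈ Icc 1 k, ∑ l, x l ^ m = ∑ l, y l ^ m) ↔ ∑ l, pv k L (x l) = ∑ l, pv k L (y l) := by
  constructor
  · intro h
    funext c
    rw [pv_sum, pv_sum, h (c.val + 1) (by rw [Finset.mem_Icc]; exact ⟨by omega, c.2⟩)]
  · intro h m hm
    rw [Finset.mem_Icc] at hm
    have hc := congrFun h ⟨m - 1, by omega⟩
    rw [pv_sum, pv_sum] at hc
    simp only [Nat.sub_add_cancel hm.1] at hc
    have hb : ∀ z : Fin S → ℕ, (∀ l, z l ≤ X) → ∑ l, z l ^ m < L := by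
      intro z hz
      calc ∑ l, z l ^ m ≤ ∑ _l : Fin S, X ^ k := Finset.sum_le_sum fun l _ =>
            (Nat.pow_le_pow_left (hz l) m).trans (Nat.pow_le_pow_right hX hm.2)
        _ = S * X ^ k := by simp
        _ < L := hL
    have := (ZMod.natCast_eq_natCast_iff' _ _ _).1 hc
    rwa [Nat.mod_eq_of_lt (hb x hx), Nat.mod_eq_of_lt (hb y hy)] at this

private theorem ac_sum {G : Type*} [AddCommGroup G] {ι : Type*} (s : Finset ι) (f : ι → G)
    (ψ : AddChar G ℂ) : ψ (∑ l ∈ s, f l) = ∏ l ∈ s, ψ (f l) := by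
  classical
  induction s using Finset.induction_on with
  | empty => simp
  | insert a s ha ih => rw [Finset.sum_insert ha, Finset.prod_insert ha, AddChar.map_add_eq_mul, ih]

private theorem sumT {G : Type*} [AddCommGroup G] (S X : ℕ) (v : ℕ → G) (ψ : AddChar G ℂ) :
    ∑ x ∈ Fintype.piFinset (fun _ : Fin S => Icc 1 X), ψ (∑ l, v (x l)) =
      (∑ n ∈ Icc 1 X, ψ (v n)) ^ S := by
  have h := Finset.prod_univ_sum (fun _ : Fin S => Icc 1 X) (fun _ n => ψ (v n))
  rw [Finset.prod_const, Finset.card_univ, Fintype.card_fin] at h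
  rw [h]
  refine Finset.sum_congr rfl fun x _ => ?_
  rw [ac_sum]

private theorem sumU {G : Type*} [AddCommGroup G] (S X : ℕ) (v : ℕ → G) (ψ : AddChar G ℂ)
    (i j : Fin S) (hij : i ≠ j) :
    ∑ x ∈ (Fintype.piFinset (fun _ : Fin S => Icc 1 X)).filter (fun x => x i = x j),
      ψ (∑ l, v (x l)) =
      (∑ n ∈ Icc 1 X, ψ (v n + v n)) * (∑ n ∈ Icc 1 X, ψ (v n)) ^ (S - 2) := by
  classical
  rw [← Finset.sum_fiberwise_of_maps_to (s := (Fintype.piFinset (fun _ : Fin S => Icc 1 X)).filter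
    (fun x => x i = x j)) (t := Icc 1 X) (g := fun x => x i)
    (fun x hx => (Fintype.mem_piFinset.1 (Finset.mem_filter.1 hx).1) i)]
  rw [Finset.sum_mul]
  refine Finset.sum_congr rfl fun n hn => ?_
  have hset : ((Fintype.piFinset (fun _ : Fin S => Icc 1 X)).filter (fun x => x i = x j)).filter
      (fun x => x i = n) =
      Fintype.piFinset (fun l : Fin S => if l ∈ ({i, j} : Finset (Fin S)) then {n}
        else Icc 1 X) := by
    ext x
    simp only [Finset.mem_filter, Fintype.mem_piFinset]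
    constructor
    · rintro ⟨⟨h1, h2⟩, h3⟩ l
      by_cases hl : l ∈ ({i, j} : Finset (Fin S))
      · rw [if_pos hl, Finset.mem_singleton]
        rw [Finset.mem_insert, Finset.mem_singleton] at hl
        rcases hl with hl | hl
        · rw [hl, h3]
        · rw [hl, ← h2, h3]
      · rw [if_neg hl]
        exact h1 l
    · intro h
      have hi := h i
      have hj := h j
      rw [if_pos (by simp), Finset.mem_singleton] at hi hj
      refine ⟨⟨fun l => ?_, by rw [hi, hj]⟩, hi⟩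
      have hl := h l
      split_ifs at hl with h5
      · rw [Finset.mem_singleton] at hl
        rw [hl]; exact hn
      · exact hl
  rw [hset]
  have h := Finset.prod_univ_sum (fun l : Fin S => if l ∈ ({i, j} : Finset (Fin S)) then {n}
        else Icc 1 X) (fun _ n => ψ (v n))
  have h2 : ∀ x : Fin S → ℕ, ψ (∑ l, v (x l)) = ∏ l, ψ (v (x l)) :=
    fun x => ac_sum _ _ _
  rw [Finset.sum_congr rfl (fun x _ => h2 x), ← h]
  have h3 : ∀ l : Fin S, ∑ m ∈ (if l ∈ ({i, j} : Finset (Fin S)) then {n} else Icc 1 X),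
      ψ (v m) = if l ∈ ({i, j} : Finset (Fin S)) then ψ (v n) else ∑ m ∈ Icc 1 X, ψ (v m) := by
    intro l
    split_ifs <;> simp
  rw [Finset.prod_congr rfl (fun l _ => h3 l), Finset.prod_ite, Finset.prod_const,
    Finset.prod_const]
  have h4 : (Finset.univ.filter (fun l : Fin S => l ∈ ({i, j} : Finset (Fin S)))).card = 2 := by
    rw [Finset.filter_mem_eq_inter, Finset.univ_inter, Finset.card_pair hij]
  have h5 : (Finset.univ.filter (fun l : Fin S => l ∉ ({i, j} : Finset (Fin S)))).card =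
      S - 2 := by
    have := Finset.card_filter_add_card_filter_not (s := (Finset.univ : Finset (Fin S)))
      (fun l : Fin S => l ∈ ({i, j} : Finset (Fin S)))
    rw [h4, Finset.card_univ, Fintype.card_fin] at this
    omega
  rw [h4, h5, AddChar.map_add_eq_mul, sq]

theorem hCOI : StCoi := by
  classical
  intro k S X i j hij
  have hS : 2 ≤ S := by
    have h1 := i.2
    have h2 := j.2
    have h3 : i.val ≠ j.val := fun h => hij (Fin.ext h)
    omega
  set T : Finset (Fin S → ℕ) := Fintype.piFinset (fun _ : Fin S => Icc 1 X) with hT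
  -- rewrite the count
  have hN : Set.ncard {z : (Fin S → ℕ) × (Fin S → ℕ) | (∀ l, z.1 l ∈ Icc 1 X) ∧
      (∀ l, z.2 l ∈ Icc 1 X) ∧
      z.1 i = z.1 j ∧ ∀ m ∈ Icc 1 k, ∑ l, z.1 l ^ m = ∑ l, z.2 l ^ m} =
      (((T.filter (fun x => x i = x j)) ×ˢ T).filter
        (fun z => ∀ m ∈ Icc 1 k, ∑ l, z.1 l ^ m = ∑ l, z.2 l ^ m)).card := by
    rw [← Set.ncard_coe_finset]
    congr 1
    ext z
    simp only [Set.mem_ofPred_eq, Finset.coe_filter, Finset.mem_product, Finset.mem_filter, hT,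
      Fintype.mem_piFinset]
    tauto
  rw [hN]
  have hJ : JJ k S X = ((T ×ˢ T).filter
        (fun z => ∀ m ∈ Icc 1 k, ∑ l, z.1 l ^ m = ∑ l, z.2 l ^ m)).card := by
    unfold JJ
    congr 1
    rw [hT]
    exact Finset.filter_congr_decidable _ _ _
  rcases Nat.eq_zero_or_pos X with hX | hX
  · subst hX
    have hTe : T = ∅ := by
      rw [hT]
      refine Finset.eq_empty_of_forall_notMem fun x hx => ?_
      have := Fintype.mem_piFinset.1 hx i
      simp at this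
    rw [hJ, hTe]
    have : 2 * S ≠ 0 := by omega
    simp [this]
  set L : ℕ := 2 * (S * X ^ k) + 1 with hL
  have hLS : S * X ^ k < L := by omega
  have : NeZero L := ⟨by omega⟩
  set v : ℕ → (Fin k → ZMod L) := pv k L with hv
  -- counts by characters
  have hmemT : ∀ x ∈ T, ∀ l, x l ≤ X := fun x hx l =>
    (Finset.mem_Icc.1 (Fintype.mem_piFinset.1 hx l)).2
  have hNc : (((T.filter (fun x => x i = x j)) ×ˢ T).filter
        (fun z => ∀ m ∈ Icc 1 k, ∑ l, z.1 l ^ m = ∑ l, z.2 l ^ m)) =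
      (((T.filter (fun x => x i = x j)) ×ˢ T).filter
        (fun z => ∑ l, v (z.1 l) = ∑ l, v (z.2 l))) := by
    refine Finset.filter_congr fun z hz => ?_
    rw [Finset.mem_product, Finset.mem_filter] at hz
    exact pv_iff k L S X hX hLS z.1 z.2 (hmemT _ hz.1.1) (hmemT _ hz.2)
  have hJc : ((T ×ˢ T).filter
        (fun z => ∀ m ∈ Icc 1 k, ∑ l, z.1 l ^ m = ∑ l, z.2 l ^ m)) =
      ((T ×ˢ T).filter (fun z => ∑ l, v (z.1 l) = ∑ l, v (z.2 l))) := by
    refine Finset.filter_congr fun z hz => ?_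
    rw [Finset.mem_product] at hz
    exact pv_iff k L S X hX hLS z.1 z.2 (hmemT _ hz.1) (hmemT _ hz.2)
  have hJd : ((T ×ˢ T).filter (fun z => ∑ l, v (z.1 l) = ∑ l, v (z.2 l))) =
      ((T ×ˢ T).filter (fun z => ∑ l, (v (z.1 l) + v (z.1 l)) =
        ∑ l, (v (z.2 l) + v (z.2 l)))) := by
    refine Finset.filter_congr fun z _ => ?_
    rw [Finset.sum_add_distrib, Finset.sum_add_distrib]
    constructor
    · intro h; rw [h]
    · intro h
      funext c
      have hc := congrFun h c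
      simp only [Pi.add_apply] at hc
      set A := (∑ l, v (z.1 l)) c
      set B := (∑ l, v (z.2 l)) c
      have h1 : ((L : ℕ) : ZMod L) = 0 := ZMod.natCast_self L
      have h2 : (((S * X ^ k + 1 : ℕ)) : ZMod L) * 2 = 1 := by
        have : (((S * X ^ k + 1) * 2 : ℕ) : ZMod L) = ((L + 1 : ℕ) : ZMod L) := by
          congr 1; omega
        rw [Nat.cast_add (L) 1, h1] at this
        push_cast at this ⊢
        rw [this]; ring
      calc A = (((S * X ^ k + 1 : ℕ)) : ZMod L) * 2 * A := by rw [h2, one_mul]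
        _ = (((S * X ^ k + 1 : ℕ)) : ZMod L) * (A + A) := by ring
        _ = (((S * X ^ k + 1 : ℕ)) : ZMod L) * (B + B) := by rw [hc]
        _ = (((S * X ^ k + 1 : ℕ)) : ZMod L) * 2 * B := by ring
        _ = B := by rw [h2, one_mul]
  set g : ℝ := (Fintype.card (Fin k → ZMod L) : ℝ) with hg
  set F : AddChar (Fin k → ZMod L) ℂ → ℂ := fun ψ => ∑ n ∈ Icc 1 X, ψ (v n) with hF
  set F2 : AddChar (Fin k → ZMod L) ℂ → ℂ := fun ψ => ∑ n ∈ Icc 1 X, ψ (v n + v n) with hF2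
  have hnormsq : ∀ (z : ℂ) (n : ℕ), z ^ n * (starRingEnd ℂ) (z ^ n) = ((‖z‖ ^ (2 * n) : ℝ) : ℂ) := by
    intro z n
    rw [Complex.mul_conj, Complex.normSq_eq_norm_sq, norm_pow, ← pow_mul, mul_comm n 2]
  have c1 : g * (JJ k S X : ℝ) = ∑ ψ, ‖F ψ‖ ^ (2 * S) := by
    have h := coi_count T T (fun x => ∑ l, v (x l)) (fun x => ∑ l, v (x l))
    rw [← hJc, ← hJ] at h
    have h2 : ∀ ψ : AddChar (Fin k → ZMod L) ℂ, (∑ x ∈ T, ψ (∑ l, v (x l))) *
        (starRingEnd ℂ) (∑ y ∈ T, ψ (∑ l, v (y l))) = ((‖F ψ‖ ^ (2 * S) : ℝ) : ℂ) := by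
      intro ψ
      rw [hT, sumT, hnormsq]
    rw [Finset.sum_congr rfl (fun ψ _ => h2 ψ)] at h
    have h3 : ((∑ ψ, ‖F ψ‖ ^ (2 * S) : ℝ) : ℂ) = ((g * (JJ k S X : ℝ) : ℝ) : ℂ) := by
      rw [hg]
      push_cast
      push_cast at h
      exact h
    exact (Complex.ofReal_injective h3).symm
  have c2 : g * (JJ k S X : ℝ) = ∑ ψ, ‖F2 ψ‖ ^ (2 * S) := by
    have h := coi_count T T (fun x => ∑ l, (v (x l) + v (x l))) (fun x => ∑ l, (v (x l) + v (x l)))
    rw [← hJd, ← hJc, ← hJ] at h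
    have h2 : ∀ ψ : AddChar (Fin k → ZMod L) ℂ, (∑ x ∈ T, ψ (∑ l, (v (x l) + v (x l)))) *
        (starRingEnd ℂ) (∑ y ∈ T, ψ (∑ l, (v (y l) + v (y l)))) =
          ((‖F2 ψ‖ ^ (2 * S) : ℝ) : ℂ) := by
      intro ψ
      rw [hT, sumT S X (fun n => v n + v n), hnormsq]
    rw [Finset.sum_congr rfl (fun ψ _ => h2 ψ)] at h
    have h3 : ((∑ ψ, ‖F2 ψ‖ ^ (2 * S) : ℝ) : ℂ) = ((g * (JJ k S X : ℝ) : ℝ) : ℂ) := by
      rw [hg]
      push_cast
      push_cast at h
      exact h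
    exact (Complex.ofReal_injective h3).symm
  set N : ℕ := (((T.filter (fun x => x i = x j)) ×ˢ T).filter
        (fun z => ∀ m ∈ Icc 1 k, ∑ l, z.1 l ^ m = ∑ l, z.2 l ^ m)).card with hNdef
  have c3 : g * (N : ℝ) ≤ ∑ ψ, ‖F2 ψ‖ * ‖F ψ‖ ^ (2 * S - 2) := by
    have h := coi_count (T.filter (fun x => x i = x j)) T (fun x => ∑ l, v (x l))
      (fun x => ∑ l, v (x l))
    rw [← hNc, ← hNdef] at h
    have h4 : g * (N : ℝ) = ‖((Fintype.card (Fin k → ZMod L) : ℂ) * (N : ℂ))‖ := by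
      rw [norm_mul, Complex.norm_natCast, Complex.norm_natCast]
    rw [h4, ← h]
    refine (norm_sum_le _ _).trans (Finset.sum_le_sum fun ψ _ => ?_)
    rw [hT, sumU S X v ψ i j hij, sumT, norm_mul, norm_mul, norm_pow, RCLike.norm_conj, norm_pow,
      mul_assoc, ← pow_add]
    have : S - 2 + S = 2 * S - 2 := by omega
    rw [this]
  have hgpos : 0 < g := by
    rw [hg]
    exact_mod_cast Fintype.card_pos
  have hold := coi_holder (Finset.univ : Finset (AddChar (Fin k → ZMod L) ℂ))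
    (fun ψ => ‖F2 ψ‖) (fun ψ => ‖F ψ‖) (fun _ _ => norm_nonneg _) (fun _ _ => norm_nonneg _)
    (2 * S - 2) (by omega)
  have h22 : 2 * S - 2 + 2 = 2 * S := by omega
  rw [h22, ← c1, ← c2] at hold
  have hcard : ((Finset.univ : Finset (AddChar (Fin k → ZMod L) ℂ)).card : ℝ) = g := by
    rw [Finset.card_univ, AddChar.card_eq]
  rw [hcard] at hold
  have h6 : (g * (N : ℝ)) ^ (2 * S) ≤ g * (JJ k S X : ℝ) * (g * (JJ k S X : ℝ)) ^ (2 * S - 2) * g :=
    (pow_le_pow_left₀ (by positivity) c3 _).trans hold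
  have h7 : g * (JJ k S X : ℝ) * (g * (JJ k S X : ℝ)) ^ (2 * S - 2) * g =
      g ^ (2 * S) * (JJ k S X : ℝ) ^ (2 * S - 1) := by
    obtain ⟨r, hr⟩ : ∃ r, 2 * S = r + 2 := ⟨2 * S - 2, by omega⟩
    rw [hr]
    simp only [Nat.add_sub_cancel]
    have : r + 2 - 1 = r + 1 := by omega
    rw [this]
    ring
  rw [h7, mul_pow] at h6
  have h8 := le_of_mul_le_mul_left h6 (pow_pos hgpos _)
  exact_mod_cast h8

end Pool.Agent.Helper1.GK
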