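import Pool.Agent.Helper23.GK.StG
import Pool.Agent.Helper48.BK.M_PS
import Pool.Agent.Helper48.BK.M_Th

/-!
# Project GK, module DVQ: exponential sums of `th - LQ`
-/

set_option autoImplicit false

namespace Pool.Agent.Helper1.GK

open Finset ArithmeticFunction Filter
open Pool.Agent.Helper23.GK
open Pool.Agent.Helper48.BK (ex th Sx Apx StVau StSW StPS StTh hPS hTh)

private theorem Sx_sub_dvq (f g : ℕ → ℝ) (y : ℕ) (α : ℝ) :
    Sx (fun n => f n - g n) y α = Sx f y α - Sx g y α := by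
  unfold Sx
  rw [← Finset.sum_sub_distrib]
  refine Finset.sum_congr rfl fun n _ => ?_
  push_cast; ring

private theorem norm_ex_dvq (t : ℝ) : ‖ex t‖ = 1 := by
  unfold ex
  have : (2 * Real.pi * t * Complex.I : ℂ) = ((2 * Real.pi * t : ℝ) : ℂ) * Complex.I := by
    push_cast; ring
  rw [this, Complex.norm_exp_ofReal_mul_I]

private theorem Sx_le_dvq (f : ℕ → ℝ) (hf : ∀ n, 0 ≤ f n) (y : ℕ) (α : ℝ) :
    ‖Sx f y α‖ ≤ ∑ n ∈ Ioc 0 y, f n := by
  unfold Sx
  refine (norm_sum_le _ _).trans (Finset.sum_le_sum fun n _ => ?_)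
  rw [norm_mul, norm_ex_dvq, mul_one, Complex.norm_real, Real.norm_of_nonneg (hf n)]

/-- for large `x` the logarithm is large and its powers are small compared with `√x` -/
private theorem ev_dvq (K : ℝ) (n : ℕ) : ∃ x₀ : ℕ, ∀ x : ℕ, x₀ ≤ x → K ≤ Real.log x ∧
    Real.log x ^ n ≤ √(x : ℝ) := by
  have h1 : Tendsto (fun x : ℕ => Real.log (x : ℝ)) atTop atTop :=
    Real.tendsto_log_atTop.comp tendsto_natCast_atTop_atTop
  have h2 : ∀ᶠ x : ℝ in atTop, ‖Real.log x ^ n‖ ≤ 1 * ‖√x‖ := by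
    have h := (Real.isLittleO_pow_log_id_atTop (n := 2 * n)).bound (c := 1) (by norm_num)
    filter_upwards [h, eventually_ge_atTop 1] with x hx hx1
    have hl : 0 ≤ Real.log x := Real.log_nonneg hx1
    rw [Real.norm_of_nonneg (by positivity), Real.norm_of_nonneg (Real.sqrt_nonneg _), one_mul]
    rw [id, Real.norm_of_nonneg (by positivity), Real.norm_of_nonneg (by linarith), one_mul] at hx
    apply Real.le_sqrt_of_sq_le
    rw [← pow_mul, mul_comm]; exact hx
  have h3 := (h1.eventually_ge_atTop K).and (tendsto_natCast_atTop_atTop.eventually h2)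
  obtain ⟨x₀, hx₀⟩ := eventually_atTop.1 h3
  refine ⟨max x₀ 1, fun x hx => ?_⟩
  obtain ⟨a, b⟩ := hx₀ x ((le_max_left _ _).trans hx)
  have hx1 : (1 : ℝ) ≤ x := by exact_mod_cast (le_max_right x₀ 1).trans hx
  have hl : 0 ≤ Real.log (x : ℝ) := Real.log_nonneg hx1
  rw [Real.norm_of_nonneg (by positivity), Real.norm_of_nonneg (Real.sqrt_nonneg _), one_mul] at b
  exact ⟨a, b⟩

private theorem ar1_dvq (L x : ℝ) (hL : 0 < L) (a b c : ℕ) :
    9 * L ^ c * L ^ b * (x / L ^ (a + b + c + 2)) = 9 / L ^ 2 * (x / L ^ a) := by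
  rw [pow_add, pow_add, pow_add]
  field_simp

private theorem ar2_dvq (L x : ℝ) (hL : 0 < L) (a b c d : ℕ) (h : L ^ (a + b + c + d + 1) ≤ x) :
    9 * L ^ c * L ^ b * (2 * L ^ d) ≤ 18 / L * (x / L ^ a) := by
  rw [div_mul_div_comm, le_div_iff₀ (by positivity)]
  calc 9 * L ^ c * L ^ b * (2 * L ^ d) * (L * L ^ a) = 18 * L ^ (a + b + c + d + 1) := by
        rw [pow_add, pow_add, pow_add, pow_add, pow_one]
        ring
    _ ≤ 18 * x := by linarith

private theorem ar3_dvq (L x C : ℝ) (hL : 0 < L) (a b : ℕ) :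
    C * (x / L ^ (a + b)) * L ^ b = C * (x / L ^ a) := by
  rw [pow_add]
  field_simp

private theorem fin_dvq (q R E P W X1 Z Y L : ℝ) (hL : 36 ≤ L) (hq : q ≤ P) (hq0 : 0 ≤ q)
    (hR0 : 0 ≤ R) (hE : E ≤ 9 * W) (hE0 : 0 ≤ E) (hP : 0 ≤ P) (hW : 0 ≤ W) (hY : 0 ≤ Y)
    (hR : R ≤ X1 + 2 * Z)
    (h1 : 9 * W * P * X1 ≤ 9 / L ^ 2 * Y) (h2 : 9 * W * P * (2 * Z) ≤ 18 / L * Y) :
    q * R * E ≤ Y := by
  have hLpos : 0 < L := by linarith
  calc q * R * E ≤ P * R * (9 * W) := by
        apply mul_le_mul _ hE hE0 (by positivity)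
        exact mul_le_mul_of_nonneg_right hq hR0
    _ ≤ P * (X1 + 2 * Z) * (9 * W) := by
        apply mul_le_mul_of_nonneg_right _ (by positivity)
        exact mul_le_mul_of_nonneg_left hR hP
    _ = 9 * W * P * X1 + 9 * W * P * (2 * Z) := by ring
    _ ≤ 9 / L ^ 2 * Y + 18 / L * Y := add_le_add h1 h2
    _ ≤ Y := by
        have h4 : 18 / L ≤ 1 / 2 := by
          rw [div_le_div_iff₀ hLpos (by norm_num)]; linarith
        have h5 : 9 / L ^ 2 ≤ 1 / 2 := by
          rw [div_le_div_iff₀ (by positivity) (by norm_num)]; nlinarith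
        nlinarith

theorem hDVQ (ha : StVau) (hd : StSW) (hlap : StLap) (hlmi : StLmi) : StDvq := by
  intro A B0
  obtain ⟨C₁, hC₁, hVau⟩ := ha
  obtain ⟨hth, C₂, hC₂, hTh⟩ := hTh
  set B : ℕ := B0 + 2 * A + 20 with hB
  set B' : ℕ := 3 * B + A + 10 with hB'
  clear_value B'
  clear_value B
  obtain ⟨xd, hSW⟩ := hd (A + B + B' + 3) (B + 1)
  obtain ⟨x₁, hx₁⟩ := ev_dvq (max 36 (5 * C₁ + C₂ + 1)) (A + 3 * B + 2 * B' + 10)
  refine ⟨B, max xd (max x₁ 3), by omega, fun x Q hx hQ1 hQ2 α y hy => ?_⟩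
  have hxd : xd ≤ x := by omega
  have hx3 : 3 ≤ x := by omega
  obtain ⟨hL0, hLx⟩ := hx₁ x (by omega)
  set L : ℝ := Real.log x with hL
  have hL36 : 36 ≤ L := (le_max_left _ _).trans hL0
  have hLC : 5 * C₁ + C₂ + 1 ≤ L := (le_max_right _ _).trans hL0
  have hL1 : 1 ≤ L := by linarith
  have hLpos : 0 < L := by linarith
  have hxr : (3 : ℝ) ≤ x := by exact_mod_cast hx3
  have hx0 : (0 : ℝ) < x := by linarith
  have hsx : √(x : ℝ) * √(x : ℝ) = x := Real.mul_self_sqrt hx0.le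
  have hsx1 : 1 ≤ √(x : ℝ) := Real.one_le_sqrt.2 (by linarith)
  have hpow : ∀ i j : ℕ, i ≤ j → L ^ i ≤ L ^ j := fun i j h => pow_le_pow_right₀ hL1 h
  have hLs : ∀ i : ℕ, i ≤ A + 3 * B + 2 * B' + 10 → L ^ i ≤ √(x : ℝ) := fun i hi =>
    (hpow _ _ hi).trans hLx
  have hsxL : ∀ i : ℕ, i ≤ A + 3 * B + 2 * B' + 10 → √(x : ℝ) ≤ x / L ^ i := by
    intro i hi
    rw [le_div_iff₀ (by positivity)]
    calc √(x : ℝ) * L ^ i ≤ √(x : ℝ) * √(x : ℝ) :=
          mul_le_mul_of_nonneg_left (hLs i hi) (by positivity)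
      _ = x := hsx
  have hLB' : L ^ B' ≤ x := by
    have h1 : L ^ B' ≤ √(x : ℝ) := hLs _ (by omega)
    nlinarith
  have hQge1 : 1 ≤ Q := by
    have h1 : (1 : ℝ) ≤ L ^ B := one_le_pow₀ hL1
    have : (1 : ℝ) ≤ Q := h1.trans hQ1
    exact_mod_cast this
  have hQ0 : (0 : ℝ) < Q := by exact_mod_cast hQge1
  -- Dirichlet approximation
  set M : ℕ := ⌊(x : ℝ) / L ^ B'⌋₊ with hM
  have hM1 : 0 < M := Nat.floor_pos.2 ((one_le_div (by positivity)).2 hLB')
  have hMle : (M : ℝ) ≤ (x : ℝ) / L ^ B' := Nat.floor_le (by positivity)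
  have hMlt : (x : ℝ) / L ^ B' < M + 1 := Nat.lt_floor_add_one _
  obtain ⟨r, hr1, hr2⟩ := Real.exists_rat_abs_sub_le_and_den_le α hM1
  set q : ℕ := r.den with hq
  set h : ℤ := r.num with hh
  have hq1 : 1 ≤ q := r.den_pos
  have hq0 : (0 : ℝ) < q := by exact_mod_cast hq1
  have hrq : (r : ℝ) = (h : ℝ) / q := by
    rw [hh, hq]
    exact (Rat.cast_def r)
  rw [hrq] at hr1
  have hqM : (q : ℝ) ≤ (x : ℝ) / L ^ B' := by
    have : (q : ℝ) ≤ M := by exact_mod_cast hr2
    linarith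
  have hqx : q ≤ x := by
    have h1 : (x : ℝ) / L ^ B' ≤ x := div_le_self hx0.le (one_le_pow₀ hL1)
    have : (q : ℝ) ≤ x := by linarith
    exact_mod_cast this
  have hcop : IsCoprime h (q : ℤ) := by
    rw [Int.isCoprime_iff_nat_coprime]
    exact r.reduced
  have hApx : Apx α h q := by
    refine ⟨hq1, hcop, hr1.trans ?_⟩
    rw [div_le_div_iff₀ (by positivity) (by positivity), one_mul, one_mul, pow_two]
    apply mul_le_mul_of_nonneg_right _ hq0.le
    have : (q : ℝ) ≤ M := by exact_mod_cast hr2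
    linarith
  by_cases hmaj : q ≤ Q
  · -- major arcs
    have hmaj' : (q : ℝ) ≤ Q := by exact_mod_cast hmaj
    have hmajL : (q : ℝ) ≤ L ^ (B + 1) := hmaj'.trans hQ2
    set β : ℝ := α - h / q with hβ
    have hαβ : α = h / q + β := by rw [hβ]; ring
    have hβx : |β| * x ≤ L ^ B' := by
      have h1 : |β| ≤ 1 / ((M : ℝ) + 1) := by
        refine hr1.trans ?_
        apply div_le_div_of_nonneg_left (by norm_num) (by positivity)
        have : (1 : ℝ) ≤ q := by exact_mod_cast hq1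
        nlinarith [(Nat.cast_nonneg M : (0 : ℝ) ≤ M)]
      calc |β| * x ≤ 1 / ((M : ℝ) + 1) * x := mul_le_mul_of_nonneg_right h1 hx0.le
        _ ≤ L ^ B' := by
          rw [one_div_mul_eq_div, div_le_iff₀ (by positivity)]
          rw [div_lt_iff₀ (by positivity)] at hMlt
          linarith
    set R : ℝ := x / L ^ (A + B + B' + 3) + 2 * (Q : ℝ) ^ 2 with hR
    have hR0 : 0 ≤ R := by positivity
    have hbd : ∀ y ≤ x, ∀ u < q,
        |∑ n ∈ (Ioc 0 y).filter (fun n => n ≡ u [MOD q]), (th n - LQ Q n)| ≤ R := by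
      intro y hy u _
      have h1 := hSW x y q u hxd hy hq1 hmajL
      have h2 := hlap Q q u y hq1 hmaj
      rw [Finset.sum_sub_distrib]
      rw [hR]
      rw [abs_le] at h1 h2 ⊢
      constructor <;> linarith [h1.1, h1.2, h2.1, h2.2]
    have h1 := hPS (fun n => th n - LQ Q n) x q h β R hq1 hbd y hy
    rw [← hαβ] at h1
    refine h1.trans ?_
    have hpi : Real.pi ≤ 4 := Real.pi_le_four
    have h2 : 1 + 2 * Real.pi * |β| * x ≤ 9 * L ^ B' := by
      have e : 2 * Real.pi * |β| * x = 2 * Real.pi * (|β| * x) := by ring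
      rw [e]
      have h3 : 2 * Real.pi * (|β| * x) ≤ 8 * L ^ B' := by
        apply mul_le_mul (by linarith) hβx (by positivity) (by norm_num)
      have h4 : 1 ≤ L ^ B' := one_le_pow₀ hL1
      linarith
    have hQsq : (Q : ℝ) ^ 2 ≤ (L ^ (B + 1)) ^ 2 := by gcongr
    have hsmall : 2 * (Q : ℝ) ^ 2 ≤ 2 * L ^ (2 * B + 2) := by
      have : (L ^ (B + 1)) ^ 2 = L ^ (2 * B + 2) := by rw [← pow_mul]; congr 1; ring
      rw [this] at hQsq
      linarith
    have hR2 : R ≤ x / L ^ (A + B + B' + 3) + 2 * L ^ (2 * B + 2) := by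
      rw [hR]; linarith
    have hp1 : 9 * L ^ B' * L ^ (B + 1) * (x / L ^ (A + B + B' + 3)) = 9 / L ^ 2 * (x / L ^ A) := by
      have e : A + B + B' + 3 = A + (B + 1) + B' + 2 := by omega
      rw [e]
      exact ar1_dvq L x hLpos A (B + 1) B'
    have hp2 : 9 * L ^ B' * L ^ (B + 1) * (2 * L ^ (2 * B + 2)) ≤ (18 / L) * (x / L ^ A) := by
      have h5 : L ^ (A + B' + 3 * B + 4) ≤ x := by
        have h6 := hLs (A + B' + 3 * B + 4) (by omega)
        nlinarith
      refine ar2_dvq L x hLpos A (B + 1) B' (2 * B + 2) ?_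
      have e : A + (B + 1) + B' + (2 * B + 2) + 1 = A + B' + 3 * B + 4 := by omega
      rw [e]
      exact h5
    have hfin := fin_dvq (q : ℝ) R (1 + 2 * Real.pi * |β| * x) (L ^ (B + 1)) (L ^ B')
      (x / L ^ (A + B + B' + 3)) (L ^ (2 * B + 2)) (x / L ^ A) L hL36 hmajL hq0.le hR0 h2
      (by positivity) (by positivity) (by positivity) (by positivity) hR2
      (by rw [hp1]) hp2
    exact hfin
  · -- minor arcs
    push Not at hmaj
    have hmaj' : (Q : ℝ) < q := by exact_mod_cast hmaj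
    have hqL : L ^ B ≤ (q : ℝ) := hQ1.trans hmaj'.le
    have hqL2 : L ^ (2 * (A + 10)) ≤ (q : ℝ) := (hpow _ _ (by omega)).trans hqL
    have hsq : L ^ (A + 10) ≤ √(q : ℝ) := by
      apply Real.le_sqrt_of_sq_le
      rw [← pow_mul, mul_comm]
      exact hqL2
    have hT1 : x / √(q : ℝ) ≤ x / L ^ (A + 10) :=
      div_le_div_of_nonneg_left hx0.le (by positivity) hsq
    set U : ℕ := ⌊L ^ (2 * (A + 10))⌋₊ with hU
    have hU1 : 1 ≤ U := Nat.le_floor (by simpa using one_le_pow₀ hL1)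
    have hUle : (U : ℝ) ≤ L ^ (2 * (A + 10)) := Nat.floor_le (by positivity)
    have hUge : L ^ (2 * (A + 10)) ≤ 4 * U := by
      have h1 := Nat.lt_floor_add_one (L ^ (2 * (A + 10)))
      have h2 : (1 : ℝ) ≤ U := by exact_mod_cast hU1
      linarith
    have hsU : L ^ (A + 10) ≤ 2 * √(U : ℝ) := by
      have h1 : √(L ^ (2 * (A + 10))) ≤ √(4 * U) := Real.sqrt_le_sqrt hUge
      rw [Real.sqrt_mul (by norm_num), show √(4 : ℝ) = 2 by
        rw [show (4 : ℝ) = 2 ^ 2 by norm_num]; exact Real.sqrt_sq (by norm_num)] at h1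
      have h2 : √(L ^ (2 * (A + 10))) = L ^ (A + 10) := by
        rw [mul_comm, pow_mul]
        exact Real.sqrt_sq (by positivity)
      rwa [h2] at h1
    have hsU0 : 0 < √(U : ℝ) := Real.sqrt_pos.2 (by exact_mod_cast hU1)
    have hT2 : x / √(U : ℝ) ≤ 2 * (x / L ^ (A + 10)) := by
      rw [← mul_div_assoc, div_le_div_iff₀ hsU0 (by positivity)]
      nlinarith
    have hqM2 : (q : ℝ) ≤ x / L ^ (2 * (A + 10)) := by
      refine hqM.trans ?_
      apply div_le_div_of_nonneg_left hx0.le (by positivity)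
      exact hpow _ _ (by omega)
    have hT3 : √((x : ℝ) * q) ≤ x / L ^ (A + 10) := by
      rw [Real.sqrt_le_left (by positivity), div_pow, ← pow_mul,
        show (A + 10) * 2 = 2 * (A + 10) by ring, pow_two, mul_div_assoc]
      exact mul_le_mul_of_nonneg_left hqM2 hx0.le
    have hU2 : (U : ℝ) ^ 2 ≤ √(x : ℝ) := by
      calc (U : ℝ) ^ 2 ≤ (L ^ (2 * (A + 10))) ^ 2 := by gcongr
        _ = L ^ (4 * (A + 10)) := by rw [← pow_mul]; congr 1; ring
        _ ≤ _ := hLs _ (by omega)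
    have hU2x : U ^ 2 ≤ x := by
      have : (U : ℝ) ^ 2 ≤ x := hU2.trans (by nlinarith)
      exact_mod_cast this
    have hT4 : (U : ℝ) ^ 2 ≤ x / L ^ (A + 10) := hU2.trans (hsxL _ (by omega))
    have h1 := hVau x y U q h α hx3 hy hU1 hU2x hqx hApx
    have hcond : |α - h / q| ≤ 1 / (2 * q * Q) := by
      refine hr1.trans ?_
      apply div_le_div_of_nonneg_left (by norm_num) (by positivity)
      have h2 : 2 * (Q : ℝ) ≤ M + 1 := by
        have h3 : 2 * (Q : ℝ) ≤ x / L ^ B' := by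
          rw [le_div_iff₀ (by positivity)]
          calc 2 * (Q : ℝ) * L ^ B' ≤ 2 * L ^ (B + 1) * L ^ B' := by
                apply mul_le_mul_of_nonneg_right _ (by positivity)
                linarith
            _ ≤ L * L ^ (B + 1) * L ^ B' := by
                apply mul_le_mul_of_nonneg_right _ (by positivity)
                apply mul_le_mul_of_nonneg_right _ (by positivity)
                linarith
            _ = L ^ (B + 2 + B') := by
                have e : B + 2 + B' = 1 + (B + 1) + B' := by omega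
                rw [e, pow_add L (1 + (B + 1)) B', pow_add L 1 (B + 1), pow_one]
            _ ≤ √(x : ℝ) := hLs _ (by omega)
            _ ≤ x := by nlinarith
        linarith
      nlinarith
    have h2 := hlmi Q q y h α hQge1 hmaj hcop hcond
    -- the sum over primes
    have h3 : ‖Sx th y α‖ ≤ ‖Sx (fun n => Λ n) y α‖ + C₂ * √x * L ^ 2 := by
      have e : Sx th y α = Sx (fun n => Λ n) y α - Sx (fun n => Λ n - th n) y α := by
        rw [Sx_sub_dvq]; ring
      rw [e]
      refine (norm_sub_le _ _).trans ?_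
      have h4 : ‖Sx (fun n => Λ n - th n) y α‖ ≤ C₂ * √x * L ^ 2 := by
        refine (Sx_le_dvq _ (fun n => by linarith [(hth n).2.1]) y α).trans ?_
        refine le_trans ?_ (hTh x hx3)
        apply Finset.sum_le_sum_of_subset_of_nonneg
        · exact Finset.Ioc_subset_Ioc_right hy
        · intro n _ _; linarith [(hth n).2.1]
      linarith
    have h5 : ‖Sx (fun n => Λ n) y α‖ ≤ 5 * C₁ * (x / L ^ (A + 4)) := by
      refine h1.trans ?_
      calc C₁ * ((x : ℝ) / √q + x / √U + √((x : ℝ) * q) + (U : ℝ) ^ 2) * L ^ 6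
          ≤ C₁ * (5 * (x / L ^ (A + 10))) * L ^ 6 := by
            apply mul_le_mul_of_nonneg_right _ (by positivity)
            apply mul_le_mul_of_nonneg_left _ hC₁.le
            linarith
        _ = 5 * C₁ * (x / L ^ (A + 4)) := by
            have e1 := ar3_dvq L x (5 * C₁) hLpos (A + 4) 6
            rw [show A + 4 + 6 = A + 10 by ring] at e1
            rw [← e1]; ring
    have h6 : C₂ * √x * L ^ 2 ≤ C₂ * (x / L ^ (A + 1)) := by
      have h7 := hsxL (A + 3) (by omega)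
      calc C₂ * √x * L ^ 2 ≤ C₂ * (x / L ^ (A + 3)) * L ^ 2 := by
            apply mul_le_mul_of_nonneg_right _ (by positivity)
            exact mul_le_mul_of_nonneg_left h7 hC₂.le
        _ = C₂ * (x / L ^ (A + 1)) := by
            exact ar3_dvq L x C₂ hLpos (A + 1) 2
    have h8 : ‖Sx (LQ Q) y α‖ ≤ x / L ^ (A + 1) := by
      refine h2.trans ?_
      have hQ22 : (Q : ℝ) ^ 2 ≤ L ^ (2 * B + 2) := by
        calc (Q : ℝ) ^ 2 ≤ (L ^ (B + 1)) ^ 2 := by gcongr
          _ = L ^ (2 * B + 2) := by rw [← pow_mul]; congr 1; ring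
      calc (q : ℝ) * (Q : ℝ) ^ 2 ≤ (x / L ^ B') * L ^ (2 * B + 2) :=
            mul_le_mul hqM hQ22 (by positivity) (by positivity)
        _ = x / L ^ (B + A + 8) := by
            have e1 := ar3_dvq L x 1 hLpos (B + A + 8) (2 * B + 2)
            rw [show B + A + 8 + (2 * B + 2) = B' by omega] at e1
            linarith
        _ ≤ x / L ^ (A + 1) := by
            apply div_le_div_of_nonneg_left hx0.le (by positivity)
            exact hpow _ _ (by omega)
    have m4 : x / L ^ (A + 4) ≤ x / L ^ (A + 1) := by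
      apply div_le_div_of_nonneg_left hx0.le (by positivity)
      exact hpow _ _ (by omega)
    have hfin : ‖Sx (fun n => th n - LQ Q n) y α‖ ≤
        (5 * C₁ + C₂ + 1) * (x / L ^ (A + 1)) := by
      rw [Sx_sub_dvq]
      refine (norm_sub_le _ _).trans ?_
      have i1 := mul_le_mul_of_nonneg_left m4 (by positivity : (0 : ℝ) ≤ 5 * C₁)
      have h9 : ‖Sx (fun n => LQ Q n) y α‖ ≤ x / L ^ (A + 1) := h8
      have h10 : ‖Sx (fun n => th n) y α‖ ≤ ‖Sx (fun n => Λ n) y α‖ + C₂ * √x * L ^ 2 := h3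
      linarith
    refine hfin.trans ?_
    calc (5 * C₁ + C₂ + 1) * (x / L ^ (A + 1)) ≤ L * (x / L ^ (A + 1)) := by
          apply mul_le_mul_of_nonneg_right hLC; positivity
      _ = x / L ^ A := by
          rw [pow_succ]; field_simp

end Pool.Agent.Helper1.GK
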