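import Pool.Agent.Helper23.GK.StF
import Pool.Agent.Helper48.BK.StD
import Pool.Agent.Helper48.BK.M_Th

/-!
# Project GK, module LOW: low frequencies (Siegel-Walfisz and partial summation)
-/

set_option autoImplicit false

namespace Pool.Agent.Helper1.GK

open Finset ArithmeticFunction Filter
open Pool.Agent.Helper23.GK
open Pool.Agent.Helper48.BK (th StSW StTh hTh)
open Pool.Agent.Helper2.MR (ch)
open Pool.Agent.Helper15.AB (IsW)

private theorem abel_low (F : ℕ → ℂ) (a : ℕ → ℂ) (N : ℕ) :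
    ∑ m ∈ Icc 1 N, F m * a m = F N * (∑ m ∈ Icc 1 N, a m) -
      ∑ k ∈ range N, (F (k + 1) - F k) * ∑ m ∈ Icc 1 k, a m := by
  induction N with
  | zero => simp
  | succ N ih =>
    rw [Finset.sum_Icc_succ_top (by omega), Finset.sum_Icc_succ_top (by omega),
      Finset.sum_range_succ, ih]
    ring

private theorem ch_norm_low (t : ℝ) (n : ℕ) : ‖ch t n‖ = 1 := by
  unfold ch
  exact Complex.norm_exp_ofReal_mul_I _

private theorem ch_sub_low (t : ℝ) (m n : ℕ) :
    ‖ch t m - ch t n‖ ≤ |t| * |Real.log m - Real.log n| := by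
  unfold ch
  have e : Complex.exp (((-(t * Real.log m) : ℝ) : ℂ) * Complex.I) -
      Complex.exp (((-(t * Real.log n) : ℝ) : ℂ) * Complex.I) =
      Complex.exp (((-(t * Real.log n) : ℝ) : ℂ) * Complex.I) *
        (Complex.exp (Complex.I * ((-(t * Real.log m) + t * Real.log n : ℝ) : ℂ)) - 1) := by
    rw [mul_sub, ← Complex.exp_add, mul_one]
    congr 2
    push_cast; ring
  rw [e, norm_mul, Complex.norm_exp_ofReal_mul_I, one_mul]
  refine (Real.norm_exp_I_mul_ofReal_sub_one_le (x := -(t * Real.log m) + t * Real.log n)).trans ?_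
  rw [Real.norm_eq_abs, ← abs_mul]
  have : -(t * Real.log m) + t * Real.log n = -(t * (Real.log m - Real.log n)) := by ring
  rw [this, abs_neg]

private theorem lip_low {w : ℝ → ℝ} (hw : IsW w) : ∃ M : ℝ, 0 ≤ M ∧ ∀ s t : ℝ,
    |w s - w t| ≤ M * |s - t| := by
  have hc : HasCompactSupport w := by
    apply HasCompactSupport.of_support_subset_isCompact (isCompact_Icc (a := (0 : ℝ)) (b := 1))
    intro t ht
    by_contra h
    exact ht (hw.supp t h)
  obtain ⟨C, hC⟩ := hw.smooth.lipschitzWith_of_hasCompactSupport hc (by norm_num)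
  refine ⟨C, C.coe_nonneg, fun s t => ?_⟩
  have := hC.dist_le_mul s t
  rwa [Real.dist_eq, Real.dist_eq] at this

/-- logarithms of consecutive integers -/
private theorem logsucc_low {m : ℕ} (hm : 1 ≤ m) :
    |Real.log ((m + 1 : ℕ) : ℝ) - Real.log m| ≤ 1 / m := by
  have hm0 : (0 : ℝ) < m := by exact_mod_cast hm
  have h1 : Real.log (((m + 1 : ℕ) : ℝ) / m) ≤ ((m + 1 : ℕ) : ℝ) / m - 1 :=
    Real.log_le_sub_one_of_pos (by positivity)
  rw [Real.log_div (by positivity) hm0.ne'] at h1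
  have h2 : Real.log m ≤ Real.log ((m + 1 : ℕ) : ℝ) :=
    Real.log_le_log hm0 (by push_cast; linarith)
  rw [abs_of_nonneg (by linarith)]
  refine h1.trans (le_of_eq ?_)
  push_cast
  field_simp
  ring

/-- the smooth factor -/
private noncomputable def fk_low (w : ℝ → ℝ) (X : ℕ) (t : ℝ) (m : ℕ) : ℂ :=
  ((w (Real.log ((m : ℝ) / (X : ℝ))) : ℝ) : ℂ) / m * ch t m

private theorem fk_step_low {w : ℝ → ℝ} (hw : IsW w) {M : ℝ} (hM0 : 0 ≤ M)
    (hM : ∀ s t : ℝ, |w s - w t| ≤ M * |s - t|) {X m : ℕ} (hX : 2 ≤ X) (t : ℝ) (hm : 1 ≤ m) :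
    ‖fk_low w X t (m + 1) - fk_low w X t m‖ ≤ 4 * (M + 1 + |t|) / (X : ℝ) ^ 2 := by
  have hX0 : (0 : ℝ) < X := by
    have : 0 < X := by omega
    exact_mod_cast this
  have hm0 : (0 : ℝ) < m := by exact_mod_cast hm
  by_cases hc : m + 1 < X
  · have z : ∀ k : ℕ, 1 ≤ k → k < X → w (Real.log ((k : ℝ) / (X : ℝ))) = 0 := by
      intro k hk1 hk
      apply hw.supp
      rintro ⟨h1, -⟩
      have hk0 : (0 : ℝ) < k := by exact_mod_cast hk1
      have hk' : (k : ℝ) < X := by exact_mod_cast hk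
      have : Real.log ((k : ℝ) / X) < 0 :=
        Real.log_neg (by positivity) (by rw [div_lt_one hX0]; exact hk')
      linarith
    unfold fk_low
    rw [z (m + 1) (by omega) hc, z m hm (by omega)]
    simp only [Complex.ofReal_zero, zero_div, zero_mul, sub_zero, norm_zero]
    positivity
  · rw [not_lt] at hc
    have hmX : (X : ℝ) / 2 ≤ m := by
      have h1 : (X : ℝ) ≤ 2 * m := by
        have : X ≤ 2 * m := by omega
        exact_mod_cast this
      linarith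
    set W1 : ℝ := w (Real.log (((m + 1 : ℕ) : ℝ) / (X : ℝ))) with hW1
    set W0 : ℝ := w (Real.log ((m : ℝ) / (X : ℝ))) with hW0
    have hm1 : (0 : ℝ) < ((m + 1 : ℕ) : ℝ) := by positivity
    have hlog := logsucc_low hm
    have hWd : |W1 - W0| ≤ M / m := by
      refine (hM _ _).trans ?_
      rw [Real.log_div hm1.ne' hX0.ne', Real.log_div hm0.ne' hX0.ne']
      have e : Real.log ((m + 1 : ℕ) : ℝ) - Real.log X - (Real.log m - Real.log X) =
        Real.log ((m + 1 : ℕ) : ℝ) - Real.log m := by ring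
      rw [e]
      calc M * |Real.log ((m + 1 : ℕ) : ℝ) - Real.log m| ≤ M * (1 / m) :=
            mul_le_mul_of_nonneg_left hlog hM0
        _ = M / m := by ring
    have hchd : ‖ch t (m + 1) - ch t m‖ ≤ |t| / m := by
      refine (ch_sub_low t (m + 1) m).trans ?_
      calc |t| * |Real.log ((m + 1 : ℕ) : ℝ) - Real.log m| ≤ |t| * (1 / m) :=
            mul_le_mul_of_nonneg_left hlog (abs_nonneg _)
        _ = |t| / m := by ring
    have hW0n : |W0| ≤ 1 := by rw [abs_of_nonneg (hw.nonneg _)]; exact hw.le_one _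
    have hinv : |1 / ((m + 1 : ℕ) : ℝ) - 1 / m| ≤ 1 / (m : ℝ) ^ 2 := by
      have e : 1 / ((m + 1 : ℕ) : ℝ) - 1 / m = -(1 / (((m + 1 : ℕ) : ℝ) * m)) := by
        push_cast; field_simp; ring
      rw [e, abs_neg, abs_of_pos (by positivity)]
      apply one_div_le_one_div_of_le (by positivity)
      push_cast; nlinarith
    have hdec : fk_low w X t (m + 1) - fk_low w X t m =
        ((W1 - W0 : ℝ) : ℂ) * ((1 / ((m + 1 : ℕ) : ℝ) : ℝ) : ℂ) * ch t (m + 1) +
        (W0 : ℂ) * ((1 / ((m + 1 : ℕ) : ℝ) - 1 / m : ℝ) : ℂ) * ch t (m + 1) +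
        (W0 : ℂ) * ((1 / (m : ℝ) : ℝ) : ℂ) * (ch t (m + 1) - ch t m) := by
      unfold fk_low
      rw [← hW1, ← hW0]
      push_cast; ring
    rw [hdec]
    have n1 : ‖((W1 - W0 : ℝ) : ℂ) * ((1 / ((m + 1 : ℕ) : ℝ) : ℝ) : ℂ) * ch t (m + 1)‖ ≤
        M / (m : ℝ) ^ 2 := by
      rw [norm_mul, norm_mul, ch_norm_low, mul_one, Complex.norm_real, Complex.norm_real,
        Real.norm_eq_abs, Real.norm_eq_abs]
      have h1 : |1 / ((m + 1 : ℕ) : ℝ)| ≤ 1 / m := by
        rw [abs_of_pos (by positivity)]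
        apply one_div_le_one_div_of_le hm0
        push_cast; linarith
      calc |W1 - W0| * |1 / ((m + 1 : ℕ) : ℝ)| ≤ (M / m) * (1 / m) :=
            mul_le_mul hWd h1 (abs_nonneg _) (by positivity)
        _ = M / (m : ℝ) ^ 2 := by field_simp
    have n2 : ‖(W0 : ℂ) * ((1 / ((m + 1 : ℕ) : ℝ) - 1 / m : ℝ) : ℂ) * ch t (m + 1)‖ ≤
        1 / (m : ℝ) ^ 2 := by
      rw [norm_mul, norm_mul, ch_norm_low, mul_one, Complex.norm_real, Complex.norm_real,
        Real.norm_eq_abs, Real.norm_eq_abs]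
      calc |W0| * |1 / ((m + 1 : ℕ) : ℝ) - 1 / m| ≤ 1 * (1 / (m : ℝ) ^ 2) :=
            mul_le_mul hW0n hinv (abs_nonneg _) (by norm_num)
        _ = _ := one_mul _
    have n3 : ‖(W0 : ℂ) * ((1 / (m : ℝ) : ℝ) : ℂ) * (ch t (m + 1) - ch t m)‖ ≤
        |t| / (m : ℝ) ^ 2 := by
      rw [norm_mul, norm_mul, Complex.norm_real, Complex.norm_real,
        Real.norm_eq_abs, Real.norm_eq_abs, abs_of_pos (by positivity : (0 : ℝ) < 1 / m)]
      calc |W0| * (1 / (m : ℝ)) * ‖ch t (m + 1) - ch t m‖ ≤ 1 * (1 / m) * (|t| / m) := by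
            apply mul_le_mul _ hchd (norm_nonneg _) (by positivity)
            exact mul_le_mul_of_nonneg_right hW0n (by positivity)
        _ = |t| / (m : ℝ) ^ 2 := by field_simp
    have hsum := (norm_add₃_le (a := ((W1 - W0 : ℝ) : ℂ) * ((1 / ((m + 1 : ℕ) : ℝ) : ℝ) : ℂ) *
        ch t (m + 1)) (b := (W0 : ℂ) * ((1 / ((m + 1 : ℕ) : ℝ) - 1 / m : ℝ) : ℂ) * ch t (m + 1))
        (c := (W0 : ℂ) * ((1 / (m : ℝ) : ℝ) : ℂ) * (ch t (m + 1) - ch t m)))
    refine hsum.trans ?_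
    have h4 : M / (m : ℝ) ^ 2 + 1 / (m : ℝ) ^ 2 + |t| / (m : ℝ) ^ 2 =
        (M + 1 + |t|) / (m : ℝ) ^ 2 := by ring
    have h5 : (M + 1 + |t|) / (m : ℝ) ^ 2 ≤ 4 * (M + 1 + |t|) / (X : ℝ) ^ 2 := by
      rw [div_le_div_iff₀ (by positivity) (by positivity)]
      have h6 : (X : ℝ) ^ 2 ≤ 4 * (m : ℝ) ^ 2 := by nlinarith
      have h7 : 0 ≤ M + 1 + |t| := by positivity
      nlinarith
    linarith

/-- the partial sums of `Λ` in a progression minus the density -/
private theorem part_low {X A B : ℕ} {C₂ : ℝ} (hX : 3 ≤ X)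
    (hSW : ∀ y q u : ℕ, y ≤ 3 * X → 1 ≤ q → (q : ℝ) ≤ Real.log ((3 * X : ℕ) : ℝ) ^ B →
      |∑ n ∈ (Ioc 0 y).filter (fun n => n ≡ u [MOD q]), th n -
        (if Nat.Coprime u q then (y : ℝ) / Nat.totient q else 0)| ≤
        ((3 * X : ℕ) : ℝ) / Real.log ((3 * X : ℕ) : ℝ) ^ A)
    (hth : ∀ n, 0 ≤ th n ∧ th n ≤ Λ n ∧ th n ≤ Real.log n)
    (hTh : ∑ n ∈ Ioc 0 (3 * X), (Λ n - th n) ≤ C₂) (q u : ℕ) (hq : 1 ≤ q)
    (hqB : (q : ℝ) ≤ Real.log X ^ B) (y : ℕ) (hy : y ≤ 3 * X) :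
    |∑ m ∈ Icc 1 y, ((if m ≡ u [MOD q] then Λ m else 0) -
      (if Nat.Coprime u q then 1 / (Nat.totient q : ℝ) else 0))| ≤
      3 * X / Real.log X ^ A + C₂ := by
  have hX0 : (0 : ℝ) < X := by
    have : 0 < X := by omega
    exact_mod_cast this
  have hX3 : (3 : ℝ) ≤ X := by exact_mod_cast hX
  have hL : 0 < Real.log X := Real.log_pos (by linarith)
  have hL3 : Real.log X ≤ Real.log ((3 * X : ℕ) : ℝ) := by
    apply Real.log_le_log hX0
    push_cast; linarith
  have h1 := hSW y q u hy hq (hqB.trans (pow_le_pow_left₀ hL.le hL3 B))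
  have h2 : ((3 * X : ℕ) : ℝ) / Real.log ((3 * X : ℕ) : ℝ) ^ A ≤ 3 * X / Real.log X ^ A := by
    push_cast
    apply div_le_div_of_nonneg_left (by positivity) (by positivity)
    have := pow_le_pow_left₀ hL.le hL3 A
    push_cast at this
    exact this
  have hI : Icc 1 y = Ioc 0 y := by ext n; simp only [Finset.mem_Icc, Finset.mem_Ioc]; omega
  have h3 : ∑ m ∈ Icc 1 y, ((if m ≡ u [MOD q] then Λ m else 0) -
      (if Nat.Coprime u q then 1 / (Nat.totient q : ℝ) else 0)) =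
      (∑ n ∈ (Ioc 0 y).filter (fun n => n ≡ u [MOD q]), th n -
        (if Nat.Coprime u q then (y : ℝ) / Nat.totient q else 0)) +
      ∑ n ∈ (Ioc 0 y).filter (fun n => n ≡ u [MOD q]), (Λ n - th n) := by
    rw [hI, Finset.sum_sub_distrib, ← Finset.sum_filter, Finset.sum_const, Nat.card_Ioc,
      Finset.sum_sub_distrib, nsmul_eq_mul]
    split_ifs
    · simp only [Nat.sub_zero]; ring
    · ring
  have h4 : 0 ≤ ∑ n ∈ (Ioc 0 y).filter (fun n => n ≡ u [MOD q]), (Λ n - th n) :=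
    Finset.sum_nonneg fun n _ => by linarith [(hth n).2.1]
  have h5 : ∑ n ∈ (Ioc 0 y).filter (fun n => n ≡ u [MOD q]), (Λ n - th n) ≤ C₂ := by
    refine le_trans ?_ hTh
    apply Finset.sum_le_sum_of_subset_of_nonneg
    · exact (Finset.filter_subset _ _).trans (Finset.Ioc_subset_Ioc_right hy)
    · intro n _ _; linarith [(hth n).2.1]
  rw [h3]
  refine (abs_add_le _ _).trans ?_
  rw [abs_of_nonneg h4]
  linarith

private theorem ev_low (K : ℝ) (C : ℝ) (hC : 0 < C) (n : ℕ) : ∃ x₀ : ℕ, ∀ X : ℕ, x₀ ≤ X →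
    K ≤ Real.log X ∧
    C * √((3 * X : ℕ) : ℝ) * Real.log ((3 * X : ℕ) : ℝ) ^ 2 ≤ X / Real.log X ^ n := by
  have h1 : Tendsto (fun x : ℕ => Real.log (x : ℝ)) atTop atTop :=
    Real.tendsto_log_atTop.comp tendsto_natCast_atTop_atTop
  have h2 : ∀ᶠ x : ℝ in atTop, Real.log x ^ (n + 3) ≤ √x := by
    have h := (Real.isLittleO_pow_log_id_atTop (n := 2 * (n + 3))).bound (c := 1) (by norm_num)
    filter_upwards [h, eventually_ge_atTop 1] with x hx hx1
    have hl : 0 ≤ Real.log x := Real.log_nonneg hx1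
    rw [id, Real.norm_of_nonneg (by positivity), Real.norm_of_nonneg (by linarith), one_mul] at hx
    apply Real.le_sqrt_of_sq_le
    rw [← pow_mul, mul_comm]; exact hx
  have h3 := (h1.eventually_ge_atTop (max K (max 2 (8 * C)))).and
    (tendsto_natCast_atTop_atTop.eventually h2)
  obtain ⟨x₀, hx₀⟩ := eventually_atTop.1 h3
  refine ⟨max x₀ 3, fun X hX => ?_⟩
  obtain ⟨a, b⟩ := hx₀ X ((le_max_left _ _).trans hX)
  have hX3 : (3 : ℝ) ≤ X := by exact_mod_cast (le_max_right x₀ 3).trans hX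
  have hX0 : (0 : ℝ) < X := by linarith
  have hK : K ≤ Real.log X := (le_max_left _ _).trans a
  have hL2 : 2 ≤ Real.log X := (le_max_left _ _).trans ((le_max_right _ _).trans a)
  have hLC : 8 * C ≤ Real.log X := (le_max_right _ _).trans ((le_max_right _ _).trans a)
  refine ⟨hK, ?_⟩
  set L := Real.log X with hL
  have hL0 : 0 < L := by linarith
  have e1 : √((3 * X : ℕ) : ℝ) ≤ 2 * √(X : ℝ) := by
    rw [show (2 : ℝ) * √(X : ℝ) = √(4 * X) by
      rw [Real.sqrt_mul (by norm_num), show √(4 : ℝ) = 2 by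
        rw [show (4 : ℝ) = 2 ^ 2 by norm_num]; exact Real.sqrt_sq (by norm_num)]]
    apply Real.sqrt_le_sqrt
    push_cast; linarith
  have e2 : Real.log ((3 * X : ℕ) : ℝ) ≤ 2 * L := by
    have : Real.log ((3 * X : ℕ) : ℝ) ≤ Real.log ((X : ℝ) ^ 2) := by
      apply Real.log_le_log (by push_cast; positivity)
      push_cast; nlinarith
    rw [Real.log_pow] at this
    push_cast at this ⊢
    linarith
  have e3 : 0 ≤ Real.log ((3 * X : ℕ) : ℝ) := Real.log_nonneg (by push_cast; linarith)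
  rw [le_div_iff₀ (by positivity)]
  have hsq : √(X : ℝ) * √(X : ℝ) = X := Real.mul_self_sqrt hX0.le
  calc C * √((3 * X : ℕ) : ℝ) * Real.log ((3 * X : ℕ) : ℝ) ^ 2 * L ^ n
      ≤ C * (2 * √(X : ℝ)) * (2 * L) ^ 2 * L ^ n := by gcongr
    _ = √(X : ℝ) * (8 * C * L ^ (n + 2)) := by rw [pow_add]; ring
    _ ≤ √(X : ℝ) * (L * L ^ (n + 2)) := by gcongr
    _ = √(X : ℝ) * L ^ (n + 3) := by rw [pow_succ' L (n + 2)]
    _ ≤ √(X : ℝ) * √(X : ℝ) := by gcongr
    _ = X := hsq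

theorem hLOW (hd : StSW) : StLow := by
  intro w hw A B
  obtain ⟨M, hM0, hM⟩ := lip_low hw
  obtain ⟨hth, C₂, hC₂, hTh⟩ := hTh
  obtain ⟨xd, hSW⟩ := hd (A + 1) B
  obtain ⟨x₁, hx₁⟩ := ev_low (48 * (M + 1)) C₂ hC₂ (A + 1)
  refine ⟨max xd (max x₁ 3), fun X hX q u t hq hqB => ?_⟩
  have hX3 : 3 ≤ X := by omega
  have hX0 : (0 : ℝ) < X := by
    have : 0 < X := by omega
    exact_mod_cast this
  obtain ⟨hLM, hLs⟩ := hx₁ X (by omega)
  set L := Real.log X with hL
  have hLpos : 0 < L := by linarith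
  have hpart := part_low (A := A + 1) (B := B) hX3
    (fun y q u hy hq hqB => hSW (3 * X) y q u (by omega) hy hq hqB) hth
    ((hTh (3 * X) (by omega)).trans hLs) q u hq hqB
  have hR : 3 * (X : ℝ) / L ^ (A + 1) + X / L ^ (A + 1) = 4 * X / L ^ (A + 1) := by ring
  rw [← hL, hR] at hpart
  -- rewrite `GB`
  have hGB : GB w X q u t = ∑ m ∈ Icc 1 (3 * X), fk_low w X t m *
      (((if m ≡ u [MOD q] then Λ m else 0) -
      (if Nat.Coprime u q then 1 / (Nat.totient q : ℝ) else 0) : ℝ) : ℂ) := by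
    unfold GB
    refine Finset.sum_congr rfl fun m _ => ?_
    unfold gw fk_low
    rw [Complex.ofReal_mul]
    ring
  rw [hGB, abel_low]
  have hend : fk_low w X t (3 * X) = 0 := by
    unfold fk_low
    have : w (Real.log (((3 * X : ℕ) : ℝ) / X)) = 0 := by
      apply hw.supp
      rintro ⟨-, h2⟩
      have e : ((3 * X : ℕ) : ℝ) / X = 3 := by
        push_cast; field_simp
      rw [e] at h2
      have h3 : (1 : ℝ) < Real.log 3 := by
        rw [Real.lt_log_iff_exp_lt (by norm_num)]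
        linarith [Real.exp_one_lt_d9]
      linarith
    rw [this]; simp
  rw [hend, zero_mul, zero_sub, norm_neg]
  have hterm : ∀ k ∈ range (3 * X), ‖(fk_low w X t (k + 1) - fk_low w X t k) *
      ∑ m ∈ Icc 1 k, (((if m ≡ u [MOD q] then Λ m else 0) -
      (if Nat.Coprime u q then 1 / (Nat.totient q : ℝ) else 0) : ℝ) : ℂ)‖ ≤
      4 * (M + 1 + |t|) / (X : ℝ) ^ 2 * (4 * X / L ^ (A + 1)) := by
    intro k hk
    rw [norm_mul]
    rcases Nat.eq_zero_or_pos k with rfl | hk0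
    · simp only [Finset.Icc_eq_empty (by norm_num : ¬ (1 : ℕ) ≤ 0), Finset.sum_empty, norm_zero,
        mul_zero]
      positivity
    · have h1 := fk_step_low hw hM0 hM (X := X) (by omega) t (m := k) hk0
      have h2 := hpart k (by have := Finset.mem_range.1 hk; omega)
      rw [← Complex.ofReal_sum, Complex.norm_real, Real.norm_eq_abs]
      exact mul_le_mul h1 h2 (abs_nonneg _) (by positivity)
  refine (norm_sum_le _ _).trans ((Finset.sum_le_sum hterm).trans ?_)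
  rw [Finset.sum_const, Finset.card_range, nsmul_eq_mul]
  push_cast
  have e1 : 3 * (X : ℝ) * (4 * (M + 1 + |t|) / (X : ℝ) ^ 2 * (4 * X / L ^ (A + 1))) =
      48 * (M + 1 + |t|) / (L * L ^ A) := by
    rw [pow_succ' L A]
    field_simp
    ring
  rw [e1, div_le_div_iff₀ (by positivity) (by positivity)]
  have h5 : 48 * (M + 1 + |t|) ≤ (1 + |t|) * L := by
    have h6 : 0 ≤ |t| := abs_nonneg t
    have h7 : 48 * (M + 1) * (1 + |t|) ≤ L * (1 + |t|) :=
      mul_le_mul_of_nonneg_right hLM (by positivity)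
    nlinarith [mul_nonneg hM0 h6]
  have h8 : 0 ≤ L ^ A := by positivity
  calc 48 * (M + 1 + |t|) * L ^ A ≤ (1 + |t|) * L * L ^ A :=
        mul_le_mul_of_nonneg_right h5 h8
    _ = (1 + |t|) * (L * L ^ A) := by ring

end Pool.Agent.Helper1.GK
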