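import Pool.Agent.Helper23.GK.StF
import Pool.Agent.Helper68.MR.Sh

/-!
# Project GK, module SHA: sharp windows are averages of Gaussian windows
-/

set_option autoImplicit false

namespace Pool.Agent.Helper1.GK

open Finset MeasureTheory
open Pool.Agent.Helper23.GK
open Pool.Agent.Helper68.MR.Shx

/-- one term of the error -/
private theorem term_sha {X m : ℕ} {T y : ℝ} (hX : 1 ≤ X) (hT : 1 ≤ T) (hm : 1 ≤ m)
    (hm3 : m ≤ 3 * X) (hy : (X : ℝ) / 2 ≤ y) (hy3 : y ≤ 3 * X) :
    (1 / (m : ℝ)) * Real.exp (-(T * |Real.log m - Real.log y|)) ≤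
      4 / (X * T) + (4 / X) * Real.exp (-(T / (3 * X) * |(m : ℝ) - y|)) := by
  have hX0 : (0 : ℝ) < X := by exact_mod_cast hX
  have hm0 : (0 : ℝ) < m := by exact_mod_cast hm
  have hT0 : 0 < T := by linarith
  have hy0 : 0 < y := by linarith [half_pos hX0]
  have hm3' : (m : ℝ) ≤ 3 * X := by exact_mod_cast hm3
  by_cases hc : (m : ℝ) ≤ y / 2
  · have hle : (m : ℝ) ≤ y := by linarith
    have hlog : Real.log m ≤ Real.log y := Real.log_le_log hm0 hle
    have hl2 : Real.log 2 ≤ Real.log y - Real.log m := by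
      rw [← Real.log_div hy0.ne' hm0.ne']
      apply Real.log_le_log (by norm_num)
      rw [le_div_iff₀ hm0]; linarith
    have h069 : 0.69 ≤ Real.log 2 := by linarith [Real.log_two_gt_d9]
    have e1 : |Real.log m - Real.log y| = Real.log y - Real.log m := by
      rw [abs_sub_comm, abs_of_nonneg (by linarith)]
    have e2 : Real.exp (-(T * |Real.log m - Real.log y|)) =
        (m / y) * Real.exp (-((T - 1) * (Real.log y - Real.log m))) := by
      rw [e1]
      have : (m : ℝ) / y = Real.exp (Real.log m - Real.log y) := by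
        rw [Real.exp_sub, Real.exp_log hm0, Real.exp_log hy0]
      rw [this, ← Real.exp_add]
      congr 1; ring
    have h3 : Real.exp (-((T - 1) * (Real.log y - Real.log m))) ≤ 2 / T := by
      have h4 : (T - 1) * 0.69 ≤ (T - 1) * (Real.log y - Real.log m) :=
        mul_le_mul_of_nonneg_left (by linarith) (by linarith)
      have h5 := Real.add_one_le_exp ((T - 1) * (Real.log y - Real.log m))
      have h6 : T / 2 ≤ Real.exp ((T - 1) * (Real.log y - Real.log m)) := by
        have : T / 2 ≤ (T - 1) * 0.69 + 1 := by linarith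
        linarith
      rw [Real.exp_neg, inv_le_comm₀ (Real.exp_pos _) (by positivity), inv_div]
      exact h6
    have h7 : (1 / (m : ℝ)) * Real.exp (-(T * |Real.log m - Real.log y|)) ≤ 4 / (X * T) := by
      rw [e2]
      calc (1 / (m : ℝ)) * (m / y * Real.exp (-((T - 1) * (Real.log y - Real.log m))))
          = (1 / y) * Real.exp (-((T - 1) * (Real.log y - Real.log m))) := by
            field_simp
        _ ≤ (2 / X) * (2 / T) := by
            apply mul_le_mul _ h3 (Real.exp_pos _).le (by positivity)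
            rw [div_le_div_iff₀ hy0 hX0]; linarith
        _ = 4 / (X * T) := by field_simp; ring
    have h8 : 0 ≤ (4 / (X : ℝ)) * Real.exp (-(T / (3 * X) * |(m : ℝ) - y|)) := by positivity
    linarith
  · rw [not_le] at hc
    have h1 : 1 / (m : ℝ) ≤ 4 / X := by
      rw [div_le_div_iff₀ hm0 hX0]; linarith
    have h2 := log_diff hm0 hy0 hm3' hy3
    have h3 : Real.exp (-(T * |Real.log m - Real.log y|)) ≤
        Real.exp (-(T / (3 * X) * |(m : ℝ) - y|)) := by
      rw [Real.exp_le_exp]
      have h4 := mul_le_mul_of_nonneg_left h2 hT0.le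
      have h5 : T * (|(m : ℝ) - y| / (3 * X)) = T / (3 * X) * |(m : ℝ) - y| := by ring
      rw [h5] at h4
      linarith
    have h6 : (1 / (m : ℝ)) * Real.exp (-(T * |Real.log m - Real.log y|)) ≤
        (4 / X) * Real.exp (-(T / (3 * X) * |(m : ℝ) - y|)) :=
      mul_le_mul h1 h3 (Real.exp_pos _).le (by positivity)
    have h8 : 0 ≤ 4 / ((X : ℝ) * T) := by positivity
    linarith

private theorem tail_sha {X : ℕ} {T y : ℝ} (hX : 1 ≤ X) (hT : 1 ≤ T) (hTX : T ≤ X)
    (hy : (X : ℝ) / 2 ≤ y) (hy3 : y ≤ 3 * X) :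
    ∑ m ∈ Icc 1 (3 * X), (1 / (m : ℝ)) * (2 * Real.exp (-(T * |Real.log m - Real.log y|))) ≤
      88 / T := by
  have hX0 : (0 : ℝ) < X := by exact_mod_cast hX
  have hT0 : 0 < T := by linarith
  have hy0 : 0 < y := by linarith [half_pos hX0]
  have hθ : 0 < T / (3 * X) := by positivity
  calc ∑ m ∈ Icc 1 (3 * X), (1 / (m : ℝ)) * (2 * Real.exp (-(T * |Real.log m - Real.log y|)))
      ≤ ∑ m ∈ Icc 1 (3 * X), (8 / (X * T) + (8 / X) *
          Real.exp (-(T / (3 * X) * |(m : ℝ) - y|))) := by
        refine Finset.sum_le_sum fun m hm => ?_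
        have h := term_sha hX hT (Finset.mem_Icc.1 hm).1 (Finset.mem_Icc.1 hm).2 hy hy3
        have e1 : (8 : ℝ) / (X * T) = 2 * (4 / (X * T)) := by ring
        have e2 : (8 : ℝ) / X = 2 * (4 / X) := by ring
        rw [e1, e2]
        linarith
    _ = 3 * X * (8 / (X * T)) + (8 / X) *
          ∑ m ∈ Icc 1 (3 * X), Real.exp (-(T / (3 * X) * |(m : ℝ) - y|)) := by
        rw [Finset.sum_add_distrib, Finset.mul_sum, Finset.sum_const, Nat.card_Icc,
          nsmul_eq_mul]
        push_cast
        simp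
    _ ≤ 3 * X * (8 / (X * T)) + (8 / X) * (2 * (1 + 1 / (T / (3 * X)))) := by
        gcongr
        exact geo _ _ hθ hy0.le _
    _ = 72 / T + 16 / X := by field_simp; ring
    _ ≤ 88 / T := by
        have h1 : 16 / (X : ℝ) ≤ 16 / T := div_le_div_of_nonneg_left (by norm_num) hT0 hTX
        have e : (88 : ℝ) / T = 72 / T + 16 / T := by ring
        rw [e]; linarith

theorem hSHA : StSha := by
  refine ⟨176, by norm_num, fun g X H G T x hX hHX hT hTX hG hg hx1 hx2 => ?_⟩
  have hX0 : (0 : ℝ) < X := by exact_mod_cast hX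
  have hT0 : 0 < T := by linarith
  have hx0 : 0 < x := by linarith [half_pos hX0]
  rcases Nat.eq_zero_or_pos H with rfl | hH
  · have e : (Icc 1 (3 * X)).filter (fun m : ℕ => x < (m : ℝ) ∧ (m : ℝ) ≤ x + ((0 : ℕ) : ℝ)) =
        ∅ := by
      apply Finset.filter_false_of_mem
      intro m _ h
      have h1 := h.1
      have h2 := h.2
      push_cast at h2
      linarith
    rw [e, Finset.sum_empty, abs_zero]
    push_cast
    rw [add_zero, intervalIntegral.integral_same, zero_add]
    positivity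
  have hH0 : (0 : ℝ) < H := by exact_mod_cast hH
  set a := Real.log x with ha
  set b := Real.log (x + H) with hb
  have hab : a < b := Real.log_lt_log hx0 (by linarith)
  set F := Icc 1 (3 * X) with hF
  let K : ℕ → ℝ := fun n => ∫ u in a..b, T * Real.exp (-(T ^ 2 * (u - Real.log n) ^ 2 / 2))
  set W : ℝ → ℂ := fun u => ∑ m ∈ F, ((g m : ℝ) : ℂ) / m *
        ((T * Real.exp (-(T ^ 2 * (u - Real.log m) ^ 2 / 2)) : ℝ) : ℂ) with hWdef
  have hW : ∫ u in a..b, W u = ∑ n ∈ F, ((g n : ℝ) : ℂ) / n * (K n : ℂ) := by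
    rw [hWdef]
    rw [intervalIntegral.integral_finsetSum]
    · refine Finset.sum_congr rfl fun n _ => ?_
      rw [intervalIntegral.integral_const_mul, intervalIntegral.integral_ofReal]
    · intro n _
      apply Continuous.intervalIntegrable
      fun_prop
  let ind : ℕ → ℝ := fun n => if x < (n : ℝ) ∧ (n : ℝ) ≤ x + H then 1 else 0
  have hS : ((∑ n ∈ F.filter (fun n : ℕ => x < (n : ℝ) ∧ (n : ℝ) ≤ x + H), g n / n : ℝ) : ℂ) =
      ∑ n ∈ F, ((g n : ℝ) : ℂ) / n * (ind n : ℂ) := by
    rw [Finset.sum_filter]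
    push_cast
    refine Finset.sum_congr rfl fun n _ => ?_
    by_cases h : x < (n : ℝ) ∧ (n : ℝ) ≤ x + H
    · simp only [ind]
      rw [if_pos h, if_pos h]; simp
    · simp only [ind]
      rw [if_neg h, if_neg h]; simp
  rw [← Real.norm_eq_abs, ← Complex.norm_real, hS]
  set s : ℝ := Real.sqrt (2 * Real.pi) with hs
  have hs1 : 1 ≤ s := by
    rw [hs, Real.one_le_sqrt]
    have := Real.pi_gt_three
    linarith
  have hdec : (s : ℂ) * ∑ n ∈ F, ((g n : ℝ) : ℂ) / n * (ind n : ℂ) =
      (∫ u in a..b, W u) + ∑ n ∈ F, ((g n : ℝ) : ℂ) / n * ((s * ind n - K n : ℝ) : ℂ) := by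
    rw [hW, Finset.mul_sum, ← Finset.sum_add_distrib]
    refine Finset.sum_congr rfl fun n _ => ?_
    push_cast
    ring
  have h1 : ‖∑ n ∈ F, ((g n : ℝ) : ℂ) / n * (ind n : ℂ)‖ ≤
      ‖(s : ℂ) * ∑ n ∈ F, ((g n : ℝ) : ℂ) / n * (ind n : ℂ)‖ := by
    rw [norm_mul, Complex.norm_real, Real.norm_of_nonneg (by linarith)]
    exact le_mul_of_one_le_left (norm_nonneg _) hs1
  refine h1.trans ?_
  rw [hdec]
  refine (norm_add_le _ _).trans ?_
  have h2 : ‖∫ u in a..b, W u‖ ≤ ∫ u in a..b, ‖W u‖ :=
    intervalIntegral.norm_integral_le_integral_norm hab.le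
  have h3 : ‖∑ n ∈ F, ((g n : ℝ) : ℂ) / n * ((s * ind n - K n : ℝ) : ℂ)‖ ≤ 176 * G / T := by
    refine (norm_sum_le _ _).trans ?_
    calc ∑ n ∈ F, ‖((g n : ℝ) : ℂ) / n * ((s * ind n - K n : ℝ) : ℂ)‖
        ≤ ∑ n ∈ F, G * ((1 / (n : ℝ)) * (2 * Real.exp (-(T * |Real.log n - a|))) +
            (1 / (n : ℝ)) * (2 * Real.exp (-(T * |Real.log n - b|)))) := by
          refine Finset.sum_le_sum fun n hn => ?_
          have hn1 := (Finset.mem_Icc.1 hn).1
          have hn0 : (0:ℝ) < n := by
            have : 0 < n := by omega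
            exact_mod_cast this
          rw [norm_mul, norm_div, Complex.norm_real, Complex.norm_real, Complex.norm_natCast]
          have e1 : ‖g n‖ / (n : ℝ) ≤ G / n := div_le_div_of_nonneg_right (hg n) hn0.le
          have e2 : ind n = if a < Real.log n ∧ Real.log n ≤ b then 1 else 0 := by
            have i1 : a < Real.log n ↔ x < n := Real.log_lt_log_iff hx0 hn0
            have i2 : Real.log n ≤ b ↔ (n : ℝ) ≤ x + H :=
              Real.log_le_log_iff hn0 (by linarith)
            simp only [ind, i1, i2]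
          have e3 := G_bound (c := Real.log n) hT0 hab
          rw [← e2] at e3
          calc ‖g n‖ / (n : ℝ) * ‖s * ind n - K n‖ ≤ G / n * (2 * Real.exp (-(T * |Real.log n - a|))
                + 2 * Real.exp (-(T * |Real.log n - b|))) :=
                mul_le_mul e1 e3 (norm_nonneg _) (by positivity)
            _ = _ := by ring
      _ = G * (∑ n ∈ F, (1 / (n : ℝ)) * (2 * Real.exp (-(T * |Real.log n - a|))) +
            ∑ n ∈ F, (1 / (n : ℝ)) * (2 * Real.exp (-(T * |Real.log n - b|)))) := by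
          rw [← Finset.mul_sum, Finset.sum_add_distrib]
      _ ≤ G * (88 / T + 88 / T) := by
          apply mul_le_mul_of_nonneg_left _ hG
          exact add_le_add (tail_sha hX hT hTX hx1 (by linarith))
            (tail_sha hX hT hTX (by linarith) hx2)
      _ = 176 * G / T := by ring
  linarith

end Pool.Agent.Helper1.GK
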