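import Pool.Agent.Helper23.GK.StA

/-!
# Project GK, module SHF: shifted systems
-/

set_option autoImplicit false

namespace Pool.Agent.Helper1.GK

open Finset
open Pool.Agent.Helper23.GK

private theorem shf_trans (k s : ℕ) (x y : Fin s → ℤ) (c : ℤ)
    (h : ∀ j ∈ Icc 1 k, ∑ i, x i ^ j = ∑ i, y i ^ j) :
    ∀ j ∈ Icc 1 k, ∑ i, (x i + c) ^ j = ∑ i, (y i + c) ^ j := by
  intro j hj
  rw [Finset.mem_Icc] at hj
  have h1 : ∀ m ∈ range (j + 1), ∑ i, x i ^ m = ∑ i, y i ^ m := by
    intro m hm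
    rw [Finset.mem_range] at hm
    by_cases hm0 : m = 0
    · subst hm0; simp
    · exact h m (by rw [Finset.mem_Icc]; omega)
  have e : ∀ w : Fin s → ℤ, ∑ i, (w i + c) ^ j =
      ∑ m ∈ range (j + 1), (∑ i, w i ^ m) * (c ^ (j - m) * (j.choose m : ℤ)) := by
    intro w
    simp_rw [add_pow]
    rw [Finset.sum_comm]
    refine Finset.sum_congr rfl fun m _ => ?_
    rw [Finset.sum_mul]
    refine Finset.sum_congr rfl fun i _ => ?_
    ring
  rw [e, e]
  exact Finset.sum_congr rfl fun m hm => by rw [h1 m hm]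

/-- Cauchy-Schwarz for the number of representations -/
private theorem shf_cs {α G : Type*} [AddCommGroup G] [DecidableEq G] (T : Finset α)
    (V : α → G) (h : G) :
    ((T ×ˢ T).filter (fun z => V z.1 - V z.2 = h)).card ≤
      ((T ×ˢ T).filter (fun z => V z.1 = V z.2)).card := by
  classical
  set r : G → ℕ := fun v => (T.filter (fun x => V x = v)).card with hr
  have hN : ∀ c : G, ((T ×ˢ T).filter (fun z => V z.1 - V z.2 = c)).card =
      ∑ v ∈ T.image V, r v * r (v - c) := by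
    intro c
    rw [Finset.card_eq_sum_card_fiberwise (f := fun z => V z.1) (t := T.image V)
      (fun z hz => by
        have := (Finset.mem_filter.1 (Finset.mem_coe.1 hz)).1
        exact Finset.mem_coe.2 (Finset.mem_image_of_mem _ (Finset.mem_product.1 this).1))]
    refine Finset.sum_congr rfl fun v _ => ?_
    rw [hr, ← Finset.card_product]
    congr 1
    ext z
    simp only [Finset.mem_filter, Finset.mem_product]
    constructor
    · rintro ⟨⟨⟨h1, h2⟩, h3⟩, h4⟩
      refine ⟨⟨h1, h4⟩, h2, ?_⟩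
      rw [← h4, ← h3]; abel
    · rintro ⟨⟨h1, h4⟩, h2, h3⟩
      refine ⟨⟨⟨h1, h2⟩, ?_⟩, h4⟩
      rw [h3, h4]; abel
  have hN0 : ((T ×ˢ T).filter (fun z => V z.1 = V z.2)).card =
      ∑ v ∈ T.image V, r v * r v := by
    have h0 := hN 0
    simp only [sub_zero] at h0
    rw [← h0]
    congr 1
    refine Finset.filter_congr fun z _ => ?_
    rw [sub_eq_zero]
  rw [hN, hN0]
  have h1 : ∑ v ∈ T.image V, r (v - h) * r (v - h) ≤ ∑ v ∈ T.image V, r v * r v := by
    have e1 : ∑ v ∈ T.image V, r (v - h) * r (v - h) =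
        ∑ w ∈ (T.image V).image (fun v => v - h), r w * r w := by
      rw [Finset.sum_image (s := T.image V) (g := fun v => v - h)]
      intro a _ b _ hab
      exact sub_left_injective hab
    rw [e1]
    refine Finset.sum_le_sum_of_ne_zero ?_
    intro w _ hw
    have hrw : r w ≠ 0 := fun h0 => hw (by rw [h0, mul_zero])
    rw [hr] at hrw
    simp only [ne_eq, Finset.card_eq_zero] at hrw
    obtain ⟨x, hx⟩ := Finset.nonempty_of_ne_empty hrw
    rw [Finset.mem_filter] at hx
    rw [← hx.2]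
    exact Finset.mem_image_of_mem _ hx.1
  have h2 : 2 * ∑ v ∈ T.image V, r v * r (v - h) ≤
      ∑ v ∈ T.image V, r v * r v + ∑ v ∈ T.image V, r (v - h) * r (v - h) := by
    rw [Finset.mul_sum, ← Finset.sum_add_distrib]
    refine Finset.sum_le_sum fun v _ => ?_
    have := two_mul_le_add_sq (r v) (r (v - h))
    nlinarith
  omega

theorem hSHF : StShf := by
  classical
  intro k s X Y a h hYX
  set T : Finset (Fin s → ℤ) := Fintype.piFinset (fun _ : Fin s => Ico a (a + Y)) with hT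
  have hmT : ∀ x : Fin s → ℤ, x ∈ T ↔ ∀ i, a ≤ x i ∧ x i < a + Y := by
    intro x
    rw [hT, Fintype.mem_piFinset]
    simp only [Finset.mem_Ico]
  set V : (Fin s → ℤ) → (Fin k → ℤ) := fun x c => ∑ i, x i ^ (c.val + 1) with hV
  have hV1 : ∀ (x y : Fin s → ℤ) (g : ℕ → ℤ), (∀ j ∈ Icc 1 k, ∑ i, x i ^ j - ∑ i, y i ^ j = g j) ↔
      V x - V y = fun c : Fin k => g (c.val + 1) := by
    intro x y g
    constructor
    · intro hg
      funext c
      simp only [Pi.sub_apply, hV]
      exact hg _ (by rw [Finset.mem_Icc]; exact ⟨by omega, c.2⟩)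
    · intro hg j hj
      rw [Finset.mem_Icc] at hj
      have := congrFun hg ⟨j - 1, by omega⟩
      simp only [Pi.sub_apply, hV, Nat.sub_add_cancel hj.1] at this
      exact this
  have e1 : {z : (Fin s → ℤ) × (Fin s → ℤ) | (∀ i, a ≤ z.1 i ∧ z.1 i < a + Y) ∧
      (∀ i, a ≤ z.2 i ∧ z.2 i < a + Y) ∧
      ∀ j ∈ Icc 1 k, ∑ i, z.1 i ^ j - ∑ i, z.2 i ^ j = h j} =
      (((T ×ˢ T).filter (fun z => V z.1 - V z.2 = fun c : Fin k => h (c.val + 1)) :
        Finset ((Fin s → ℤ) × (Fin s → ℤ))) : Set ((Fin s → ℤ) × (Fin s → ℤ))) := by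
    ext z
    simp only [Set.mem_ofPred_eq, Finset.coe_filter, Finset.mem_product, hmT]
    rw [← hV1 z.1 z.2 h, and_assoc]
  rw [e1, Set.ncard_coe_finset]
  refine (shf_cs T V _).trans ?_
  unfold JJ
  refine Finset.card_le_card_of_injOn
    (fun z => ((fun i => (z.1 i + (1 - a)).toNat), (fun i => (z.2 i + (1 - a)).toNat))) ?_ ?_
  · intro z hz
    simp only [Finset.coe_filter, Set.mem_ofPred_eq, Finset.mem_product, hmT] at hz
    simp only [Finset.coe_filter, Set.mem_ofPred_eq, Finset.mem_product,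
      Fintype.mem_piFinset, Finset.mem_Icc]
    obtain ⟨⟨h1, h2⟩, h3⟩ := hz
    have hb : ∀ w : Fin s → ℤ, (∀ i, a ≤ w i ∧ w i < a + Y) →
        ∀ i, 1 ≤ (w i + (1 - a)).toNat ∧ (w i + (1 - a)).toNat ≤ X := by
      intro w hw i
      have := hw i
      omega
    refine ⟨⟨hb z.1 h1, hb z.2 h2⟩, ?_⟩
    have h4 : ∀ j ∈ Icc 1 k, ∑ i, z.1 i ^ j = ∑ i, z.2 i ^ j := by
      have := (hV1 z.1 z.2 (fun _ => 0)).2 (by rw [h3]; funext c; simp)
      intro j hj
      exact sub_eq_zero.1 (this j hj)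
    have h5 := shf_trans k s z.1 z.2 (1 - a) h4
    intro j hj
    have h6 := h5 j (by rw [Finset.mem_Icc]; exact hj)
    have e2 : ∀ w : Fin s → ℤ, (∀ i, a ≤ w i ∧ w i < a + Y) →
        ∑ i, (w i + (1 - a)) ^ j = ((∑ i, ((w i + (1 - a)).toNat) ^ j : ℕ) : ℤ) := by
      intro w hw
      push_cast
      refine Finset.sum_congr rfl fun i _ => ?_
      have := hw i
      rw [Int.toNat_of_nonneg (by omega)]
    rw [e2 z.1 h1, e2 z.2 h2] at h6
    exact_mod_cast h6
  · intro z hz w hw hzw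
    simp only [Finset.coe_filter, Set.mem_ofPred_eq, Finset.mem_product, hmT] at hz hw
    simp only [Prod.mk.injEq] at hzw
    refine Prod.ext ?_ ?_
    · funext i
      have h1 := congrFun hzw.1 i
      have h2 := hz.1.1 i
      have h3 := hw.1.1 i
      omega
    · funext i
      have h1 := congrFun hzw.2 i
      have h2 := hz.1.2 i
      have h3 := hw.1.2 i
      omega

end Pool.Agent.Helper1.GK
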