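import Pool.Agent.Helper23.GK.StA

/-!
# Project GK, module STP: the recursion for Vinogradov's system
-/

set_option autoImplicit false

namespace Pool.Agent.Helper1.GK

open Finset
open Pool.Agent.Helper23.GK

private theorem stp_pairs (k : ℕ) :
    2 * (((univ : Finset (Fin k)) ×ˢ (univ : Finset (Fin k))).filter
      (fun q => q.1 < q.2)).card = k * (k - 1) := by
  classical
  have h1 : (((univ : Finset (Fin k)) ×ˢ (univ : Finset (Fin k))).filter
      (fun q => q.1 < q.2)).card = (((univ : Finset (Fin k)) ×ˢ (univ : Finset (Fin k))).filter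
      (fun q => q.2 < q.1)).card := by
    refine Finset.card_bij (fun q _ => q.swap) ?_ ?_ ?_
    · intro q hq; simpa using hq
    · intro a _ b _ h; exact Prod.swap_injective h
    · intro b hb; exact ⟨b.swap, by simpa using hb, by simp⟩
  have h2 : (((univ : Finset (Fin k)) ×ˢ (univ : Finset (Fin k))).filter
      (fun q => q.1 < q.2)) ∪ (((univ : Finset (Fin k)) ×ˢ (univ : Finset (Fin k))).filter
      (fun q => q.2 < q.1)) = (univ : Finset (Fin k)).offDiag := by
    ext q
    simp only [Finset.mem_union, Finset.mem_filter, Finset.mem_product, Finset.mem_univ,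
      true_and, Finset.mem_offDiag]
    constructor
    · rintro (h | h)
      · exact h.ne
      · exact h.ne'
    · intro h
      exact lt_or_gt_of_ne h
  have h3 : Disjoint (((univ : Finset (Fin k)) ×ˢ (univ : Finset (Fin k))).filter
      (fun q => q.1 < q.2)) (((univ : Finset (Fin k)) ×ˢ (univ : Finset (Fin k))).filter
      (fun q => q.2 < q.1)) := by
    rw [Finset.disjoint_filter]
    intro q _ h1 h2
    exact absurd (h1.trans h2) (lt_irrefl _)
  have h4 := Finset.card_union_of_disjoint h3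
  rw [h2, Finset.offDiag_card, Finset.card_univ, Fintype.card_fin, ← h1] at h4
  rw [Nat.mul_sub, mul_one]
  omega

private theorem stp_arith (k S J n : ℕ) (hS : 1 ≤ S) (hJ : (4 * k ^ 4) ^ S ≤ J)
    (hn : n ^ (2 * S) ≤ J ^ (2 * S - 1)) : 2 * k ^ 2 * n ≤ J := by
  by_contra hcon
  push Not at hcon
  have h1 : J ^ (2 * S) < (2 * k ^ 2 * n) ^ (2 * S) :=
    Nat.pow_lt_pow_left hcon (by omega)
  have h2 : (2 * k ^ 2 * n) ^ (2 * S) = (4 * k ^ 4) ^ S * n ^ (2 * S) := by
    rw [mul_pow, pow_mul]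
    congr 2
    ring
  have h3 : (4 * k ^ 4) ^ S * n ^ (2 * S) ≤ J * J ^ (2 * S - 1) := Nat.mul_le_mul hJ hn
  have h4 : J * J ^ (2 * S - 1) = J ^ (2 * S) := by
    rw [← pow_succ']
    congr 1
    omega
  omega

/-- the product of the differences -/
private def dd {k : ℕ} (x : Fin k → ℕ) : ℕ :=
  ∏ q ∈ ((univ : Finset (Fin k)) ×ˢ (univ : Finset (Fin k))).filter (fun q => q.1 < q.2),
    ((x q.1 : ℤ) - x q.2).natAbs

private theorem dd_ne {k : ℕ} (x : Fin k → ℕ) (hx : Function.Injective x) : dd x ≠ 0 := by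
  unfold dd
  rw [Finset.prod_ne_zero_iff]
  intro q hq h
  rw [Finset.mem_filter] at hq
  rw [Int.natAbs_eq_zero, sub_eq_zero] at h
  exact hq.2.ne (hx (by exact_mod_cast h))

private theorem dd_le {k : ℕ} (x : Fin k → ℕ) (X : ℕ) (hx : ∀ i, x i ≤ X) :
    dd x ^ 2 ≤ X ^ (k * (k - 1)) := by
  have h1 : dd x ≤ X ^ (((univ : Finset (Fin k)) ×ˢ (univ : Finset (Fin k))).filter
      (fun q => q.1 < q.2)).card := by
    unfold dd
    refine Finset.prod_le_pow_card _ _ _ fun q _ => ?_
    have h1 := hx q.1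
    have h2 := hx q.2
    omega
  calc dd x ^ 2 ≤ (X ^ (((univ : Finset (Fin k)) ×ˢ (univ : Finset (Fin k))).filter
      (fun q => q.1 < q.2)).card) ^ 2 := Nat.pow_le_pow_left h1 2
    _ = X ^ (k * (k - 1)) := by rw [← pow_mul, mul_comm, stp_pairs]

private theorem dd_dvd {k : ℕ} (x : Fin k → ℕ) (p : ℕ) (h : ¬ Inc p x) : p ∣ dd x := by
  unfold Inc at h
  push Not at h
  obtain ⟨i, j, hij, h⟩ := h
  have key : ∀ i j : Fin k, i < j → x i ≡ x j [MOD p] → p ∣ dd x := by
    intro i j hij h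
    unfold dd
    refine dvd_trans ?_ (Finset.dvd_prod_of_mem (fun q : Fin k × Fin k =>
      ((x q.1 : ℤ) - x q.2).natAbs) (a := (i, j)) (by simp [hij]))
    rw [← Int.natCast_dvd]
    exact Nat.ModEq.dvd h.symm
  rcases lt_or_gt_of_ne hij with h1 | h1
  · exact key i j h1 h
  · exact key j i h1 h.symm

private theorem stp_prime (k X : ℕ) (P : Finset ℕ) (hk : 2 ≤ k) (hX : 2 ≤ X)
    (hP : k ^ 3 ≤ P.card) (hPp : ∀ p ∈ P, p.Prime ∧ k < p ∧ X ≤ p ^ k)
    (x y : Fin k → ℕ) (hx : ∀ i, x i ≤ X) (hy : ∀ i, y i ≤ X) (hxi : Function.Injective x)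
    (hyi : Function.Injective y) : ∃ p ∈ P, Inc p x ∧ Inc p y := by
  by_contra hcon
  push Not at hcon
  have h1 : ∀ p ∈ P, p ∣ dd x * dd y := by
    intro p hp
    by_cases h : Inc p x
    · exact dvd_mul_of_dvd_right (dd_dvd y p (hcon p hp h)) _
    · exact dvd_mul_of_dvd_left (dd_dvd x p h) _
  have h2 : ∏ p ∈ P, p ∣ dd x * dd y :=
    Finset.prod_primes_dvd _ (fun p hp => (hPp p hp).1.prime) h1
  have hne : dd x * dd y ≠ 0 := mul_ne_zero (dd_ne x hxi) (dd_ne y hyi)
  have h3 : ∏ p ∈ P, p ≤ dd x * dd y := Nat.le_of_dvd (Nat.pos_of_ne_zero hne) h2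
  have h4 : X ^ P.card ≤ (∏ p ∈ P, p) ^ k := by
    rw [← Finset.prod_pow]
    exact Finset.pow_card_le_prod P _ X fun p hp => (hPp p hp).2.2
  have h5 : X ^ (k ^ 3) ≤ (dd x * dd y) ^ k :=
    (Nat.pow_le_pow_right (by omega) hP).trans (h4.trans (Nat.pow_le_pow_left h3 k))
  have h6 : (dd x * dd y) ^ 2 ≤ X ^ (k * (k - 1)) * X ^ (k * (k - 1)) := by
    rw [mul_pow]
    exact Nat.mul_le_mul (dd_le x X hx) (dd_le y X hy)
  have h7 : (X ^ (k ^ 3)) ^ 2 ≤ (X ^ (k * (k - 1)) * X ^ (k * (k - 1))) ^ k := by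
    calc (X ^ (k ^ 3)) ^ 2 ≤ ((dd x * dd y) ^ k) ^ 2 := Nat.pow_le_pow_left h5 2
      _ = ((dd x * dd y) ^ 2) ^ k := by rw [← pow_mul, ← pow_mul, mul_comm k 2]
      _ ≤ _ := Nat.pow_le_pow_left h6 k
  rw [← pow_add, ← pow_mul, ← pow_mul] at h7
  have h8 := (Nat.pow_le_pow_iff_right (by omega : 1 < X)).1 h7
  obtain ⟨r, rfl⟩ : ∃ r, k = r + 1 := ⟨k - 1, by omega⟩
  simp only [Nat.add_sub_cancel] at h8
  nlinarith

theorem hSTP (hcoi : StCoi) (hgpp : StGpp) : StStp := by
  classical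
  intro k s X P hk hX hP hPp
  have hX2 : 2 ≤ X := by
    have : 1 ≤ k ^ 4 := Nat.one_le_pow _ _ (by omega)
    omega
  set T : Finset (Fin (s + k) → ℕ) := Fintype.piFinset (fun _ : Fin (s + k) => Icc 1 X) with hT
  set A : Finset ((Fin (s + k) → ℕ) × (Fin (s + k) → ℕ)) :=
    (T ×ˢ T).filter (fun z => ∀ j ∈ Icc 1 k, ∑ i, z.1 i ^ j = ∑ i, z.2 i ^ j) with hA
  have hJ : JJ k (s + k) X = A.card := by
    unfold JJ
    rw [hA, hT]
  have hmemA : ∀ z, z ∈ A ↔ (∀ l, z.1 l ∈ Icc 1 X) ∧ (∀ l, z.2 l ∈ Icc 1 X) ∧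
      ∀ j ∈ Icc 1 k, ∑ i, z.1 i ^ j = ∑ i, z.2 i ^ j := by
    intro z
    rw [hA]
    simp only [Finset.mem_filter]
    rw [Finset.mem_product, hT, Fintype.mem_piFinset, Fintype.mem_piFinset, and_assoc]
  set Q : Finset (Fin k × Fin k) :=
    ((univ : Finset (Fin k)) ×ˢ (univ : Finset (Fin k))).filter (fun q => q.1 < q.2) with hQ
  have hQc : 2 * Q.card = k * (k - 1) := stp_pairs k
  -- lower bound for J
  have hJlow : (4 * k ^ 4) ^ (s + k) ≤ A.card := by
    calc (4 * k ^ 4) ^ (s + k) ≤ X ^ (s + k) := Nat.pow_le_pow_left hX _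
      _ = T.card := by rw [hT, Fintype.card_piFinset]; simp
      _ ≤ A.card := by
        refine Finset.card_le_card_of_injOn (fun x => (x, x)) ?_ ?_
        · intro x hx
          have hx' := Fintype.mem_piFinset.1 (Finset.mem_coe.1 hx)
          simp only [Finset.mem_coe]
          rw [hmemA]
          exact ⟨hx', hx', fun _ _ => rfl⟩
        · intro a _ b _ h
          exact (Prod.mk.inj h).1
  -- coincidences
  have key1 : ∀ q ∈ Q, 2 * k ^ 2 * (A.filter (fun z => z.1 (Fin.natAdd s q.1) =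
      z.1 (Fin.natAdd s q.2))).card ≤ A.card := by
    intro q hq
    have hne : (Fin.natAdd s q.1 : Fin (s + k)) ≠ Fin.natAdd s q.2 := by
      intro h
      exact (Finset.mem_filter.1 hq).2.ne (Fin.natAdd_injective k s h)
    have h := hcoi k (s + k) X (Fin.natAdd s q.1) (Fin.natAdd s q.2) hne
    refine stp_arith k (s + k) A.card _ (by omega) hJlow ?_
    rw [← hJ]
    refine le_trans (le_of_eq ?_) h
    congr 1
    rw [← Set.ncard_coe_finset]
    congr 1
    ext z
    simp only [Finset.coe_filter, Set.mem_ofPred_eq]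
    rw [hmemA]
    tauto
  have key2 : ∀ q ∈ Q, 2 * k ^ 2 * (A.filter (fun z => z.2 (Fin.natAdd s q.1) =
      z.2 (Fin.natAdd s q.2))).card ≤ A.card := by
    intro q hq
    refine le_trans ?_ (key1 q hq)
    refine Nat.mul_le_mul_left _ ?_
    refine Finset.card_le_card_of_injOn Prod.swap ?_ (Prod.swap_injective.injOn)
    intro z hz
    simp only [Finset.coe_filter, Set.mem_ofPred_eq] at hz ⊢
    rw [hmemA] at hz ⊢
    exact ⟨⟨hz.1.2.1, hz.1.1, fun j hj => (hz.1.2.2 j hj).symm⟩, hz.2⟩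
  set B := A.filter (fun z => ¬ (Function.Injective (fun i : Fin k => z.1 (Fin.natAdd s i)) ∧
    Function.Injective (fun i : Fin k => z.2 (Fin.natAdd s i)))) with hB
  set C := A.filter (fun z => (Function.Injective (fun i : Fin k => z.1 (Fin.natAdd s i)) ∧
    Function.Injective (fun i : Fin k => z.2 (Fin.natAdd s i)))) with hC
  have hBC : C.card + B.card = A.card := Finset.card_filter_add_card_filter_not _
  have hninj : ∀ f : Fin k → ℕ, ¬ Function.Injective f → ∃ q ∈ Q, f q.1 = f q.2 := by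
    intro f hf
    unfold Function.Injective at hf
    push Not at hf
    obtain ⟨a, b, h1, h2⟩ := hf
    rcases lt_or_gt_of_ne h2 with h | h
    · exact ⟨(a, b), by rw [hQ]; simp [h], h1⟩
    · exact ⟨(b, a), by rw [hQ]; simp [h], h1.symm⟩
  have hBsub : B ⊆ Q.biUnion (fun q => (A.filter (fun z => z.1 (Fin.natAdd s q.1) =
      z.1 (Fin.natAdd s q.2))) ∪ (A.filter (fun z => z.2 (Fin.natAdd s q.1) =
      z.2 (Fin.natAdd s q.2)))) := by
    intro z hz
    rw [hB, Finset.mem_filter] at hz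
    rw [Finset.mem_biUnion]
    rw [not_and_or] at hz
    rcases hz.2 with h | h
    · obtain ⟨q, hq, h⟩ := hninj _ h
      exact ⟨q, hq, Finset.mem_union_left _ (Finset.mem_filter.2 ⟨hz.1, h⟩)⟩
    · obtain ⟨q, hq, h⟩ := hninj _ h
      exact ⟨q, hq, Finset.mem_union_right _ (Finset.mem_filter.2 ⟨hz.1, h⟩)⟩
  have hBcard : 2 * k ^ 2 * B.card ≤ Q.card * (2 * A.card) := by
    calc 2 * k ^ 2 * B.card ≤ 2 * k ^ 2 * ∑ q ∈ Q, ((A.filter (fun z =>
          z.1 (Fin.natAdd s q.1) = z.1 (Fin.natAdd s q.2))).card +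
          (A.filter (fun z => z.2 (Fin.natAdd s q.1) = z.2 (Fin.natAdd s q.2))).card) := by
          refine Nat.mul_le_mul_left _ ?_
          refine (Finset.card_le_card hBsub).trans (Finset.card_biUnion_le.trans ?_)
          exact Finset.sum_le_sum fun q _ => Finset.card_union_le _ _
      _ = ∑ q ∈ Q, (2 * k ^ 2 * (A.filter (fun z =>
          z.1 (Fin.natAdd s q.1) = z.1 (Fin.natAdd s q.2))).card +
          2 * k ^ 2 * (A.filter (fun z => z.2 (Fin.natAdd s q.1) =
            z.2 (Fin.natAdd s q.2))).card) := by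
          rw [Finset.mul_sum]
          exact Finset.sum_congr rfl fun q _ => by ring
      _ ≤ ∑ _q ∈ Q, (2 * A.card) := Finset.sum_le_sum fun q hq => by
          have h1 := key1 q hq
          have h2 := key2 q hq
          omega
      _ = Q.card * (2 * A.card) := by rw [Finset.sum_const, smul_eq_mul]
  have hB2 : 2 * B.card ≤ A.card := by
    have h1 : Q.card * (2 * A.card) ≤ k ^ 2 * A.card := by
      calc Q.card * (2 * A.card) = (2 * Q.card) * A.card := by ring
        _ = k * (k - 1) * A.card := by rw [hQc]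
        _ ≤ k ^ 2 * A.card := by
          refine Nat.mul_le_mul_right _ ?_
          rw [sq]
          exact Nat.mul_le_mul_left _ (by omega)
    have h2 : k ^ 2 * (2 * B.card) ≤ k ^ 2 * A.card := by
      calc k ^ 2 * (2 * B.card) = 2 * k ^ 2 * B.card := by ring
        _ ≤ _ := hBcard.trans h1
    exact Nat.le_of_mul_le_mul_left h2 (by positivity)
  have hC2 : A.card ≤ 2 * C.card := by omega
  -- the good solutions
  have hCsub : C ⊆ P.biUnion (fun p => A.filter (fun z =>
      Inc p (fun i : Fin k => z.1 (Fin.natAdd s i)) ∧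
      Inc p (fun i : Fin k => z.2 (Fin.natAdd s i)))) := by
    intro z hz
    rw [hC, Finset.mem_filter] at hz
    have hzA := (hmemA z).1 hz.1
    obtain ⟨p, hp, h⟩ := stp_prime k X P hk hX2 hP hPp
      (fun i : Fin k => z.1 (Fin.natAdd s i)) (fun i : Fin k => z.2 (Fin.natAdd s i))
      (fun i => (Finset.mem_Icc.1 (hzA.1 _)).2) (fun i => (Finset.mem_Icc.1 (hzA.2.1 _)).2)
      hz.2.1 hz.2.2
    exact Finset.mem_biUnion.2 ⟨p, hp, Finset.mem_filter.2 ⟨hz.1, h⟩⟩
  have hGG : ∀ p ∈ P, (A.filter (fun z =>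
      Inc p (fun i : Fin k => z.1 (Fin.natAdd s i)) ∧
      Inc p (fun i : Fin k => z.2 (Fin.natAdd s i)))).card ≤ GG k s X p := by
    intro p _
    unfold GG
    refine Finset.card_le_card_of_injOn
      (fun z => (((fun i => z.1 (Fin.natAdd s i)), (fun i => z.2 (Fin.natAdd s i))),
        ((fun i => z.1 (Fin.castAdd k i)), (fun i => z.2 (Fin.castAdd k i))))) ?_ ?_
    · intro z hz
      simp only [Finset.coe_filter, Set.mem_ofPred_eq, Finset.mem_product,
        Fintype.mem_piFinset] at hz ⊢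
      rw [hmemA] at hz
      refine ⟨⟨⟨fun i => hz.1.1 _, fun i => hz.1.2.1 _⟩, fun i => hz.1.1 _, fun i => hz.1.2.1 _⟩,
        hz.2.1, hz.2.2, ?_⟩
      intro j hj
      have h := hz.1.2.2 j hj
      rw [Fin.sum_univ_add, Fin.sum_univ_add] at h
      omega
    · intro a _ b _ h
      simp only [Prod.mk.injEq] at h
      obtain ⟨⟨h1, h2⟩, h3, h4⟩ := h
      refine Prod.ext ?_ ?_
      · funext l
        induction l using Fin.addCases with
        | left i => exact congrFun h3 i
        | right i => exact congrFun h1 i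
      · funext l
        induction l using Fin.addCases with
        | left i => exact congrFun h4 i
        | right i => exact congrFun h2 i
  rw [hJ]
  refine hC2.trans (Nat.mul_le_mul_left 2 ?_)
  refine (Finset.card_le_card hCsub).trans (Finset.card_biUnion_le.trans ?_)
  refine Finset.sum_le_sum fun p hp => ?_
  exact (hGG p hp).trans (hgpp k s X p (by omega) (hPp p hp).1 (hPp p hp).2.1 (hPp p hp).2.2)

end Pool.Agent.Helper1.GK
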